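import Pool.Agent.P.MP_fc4783_an.NonConv

/-! Translates of the biased means by elements of small size. -/

namespace Pool.Agent.P.MP_fc4783_an

open Filter Topology Finset MeasureTheory

/-- Translate of a mean. -/
def Mean.shift (μ : Mean) (c : ℤ) : Mean where
  S := μ.S
  w := μ.w
  p := fun j => μ.p j + c
  nonneg := μ.nonneg
  sum_one := μ.sum_one

lemma Mean.shift_avg (μ : Mean) (c : ℤ) (ψ : ℤ → ℂ) :
    (μ.shift c).avg ψ = μ.avg fun s => ψ (s + c) := (rfl)

lemma avg_ex_shift (μ : Mean) (x : ℝ) (c : ℤ) :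
    (μ.avg fun s => ex (x * (s + c : ℤ))) = ex (x * c) * μ.avg fun s => ex (x * s) := by
  rw [← Mean.avg_const_mul]
  congr 1; ext s
  rw [← ex_add]; congr 1; push_cast; ring

lemma Adm.char {ν n L} (h : Adm ν n L) (x : ℝ) (c : ℤ) : ‖ex (x * c) - 1‖ * ‖L x‖ ≤ n c := by
  refine le_of_forall_pos_le_add fun ε hε => ?_
  refine le_of_tendsto ((h.lim x).norm.const_mul ‖ex (x * c) - 1‖) ?_
  filter_upwards [h.inv c ε hε] with i hi
  have := hi (fun s => ex (x * s)) fun s => by simp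
  rwa [avg_ex_shift, ← sub_one_mul, norm_mul] at this

lemma Adm.ex_shift {ν n L} (h : Adm ν n L) (c : ℕ → ℤ)
    (hc : Tendsto (fun i => n (c i)) atTop (𝓝 0)) (x : ℝ) (u : ℕ → ℂ)
    (hu : Tendsto u atTop (𝓝 (L x))) :
    Tendsto (fun i => ex (x * c i) * u i - u i) atTop (𝓝 0) := by
  have h1 : Tendsto (fun i => n (c i) + 2 * ‖u i - L x‖) atTop (𝓝 0) := by
    simpa using hc.add ((tendsto_iff_norm_sub_tendsto_zero.1 hu).const_mul 2)
  refine squeeze_zero_norm (fun i => ?_) h1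
  have e : ex (x * c i) * u i - u i =
      (ex (x * c i) - 1) * L x + (ex (x * c i) - 1) * (u i - L x) := by ring
  rw [e]
  refine (norm_add_le _ _).trans (add_le_add ?_ ?_)
  · rw [norm_mul]; exact h.char x _
  · rw [norm_mul]
    gcongr
    refine (norm_sub_le _ _).trans ?_
    simp; norm_num

lemma Adm.shift {ν n L} (h : Adm ν n L) (c : ℕ → ℤ)
    (hc : Tendsto (fun i => n (c i)) atTop (𝓝 0)) : Adm (fun i => (ν i).shift (c i)) n L where
  nonneg := h.nonneg
  zero := h.zero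
  sub := h.sub
  inv := fun k ε hε => (h.inv k ε hε).mono fun i hi ψ hψ => by
    have := hi (fun s => ψ (s + c i)) fun s => hψ _
    simpa only [Mean.shift_avg, add_right_comm _ k] using this
  inf := h.inf
  lim := fun x => by
    have := (h.ex_shift c hc x _ (h.lim x)).add (h.lim x)
    simpa only [sub_add_cancel, zero_add, Mean.shift_avg, avg_ex_shift] using this
  fin := h.fin

lemma Mult.shift {n U} (h : Mult n U) (c : ℕ → ℤ) : Mult n fun i s => U i (s - c i) :=
  ⟨fun i s => h.1 i _, fun i s k => by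
    simpa only [add_sub_right_comm] using h.2 i (s - c i) k⟩

lemma Adm.exists_large {ν n L} (h : Adm ν n L) (ε : ℝ) (hε : 0 < ε) (M : ℤ) :
    ∃ q : ℤ, M < q ∧ n q ≤ ε := by
  obtain ⟨q, h1, h2⟩ := (h.inf ε hε).exists_notMem_finite (Set.finite_Icc (-M) M)
  rw [Set.mem_Icc] at h2
  rcases lt_or_ge M q with h3 | h3
  · exact ⟨q, h3, h1⟩
  · exact ⟨-q, by omega, (h.neg_le q).trans h1⟩

section
variable {θ : ℕ → ℝ} {ν : ℕ → ℕ → Mean} {n n' : ℤ → ℝ} {L : ℕ → ℝ → ℂ} (hS : Spec θ ν n n' L)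
include hS

lemma Spec.bias_shift {A : AddSubgroup ℝ} {ψ : ℤ → ℂ} (h : Str A ψ) (c : ℕ → ℤ)
    (hc : Tendsto (fun i => n (c i)) atTop (𝓝 0)) :
    Tendsto (fun i => ((bias θ (ν 0) i).shift (c i)).avg ψ - (bias θ (ν 0) i).avg ψ)
      atTop (𝓝 0) := by
  have key : ∀ c : ℕ → ℤ, Tendsto (fun i => n (c i)) atTop (𝓝 0) → ∀ φ, Null φ →
      Tendsto (fun i => ((bias θ (ν 0) i).shift (c i)).avg φ) atTop (𝓝 0) := by
    intro c hc φ hφ
    have hA := (hS.adm 0).shift c hc
    simp only [Mean.shift_avg, bias, Mean.rew_avg, avg_dens_mul]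
    have a0 := hA.null φ hφ
    have a1 := hφ _ _ _ _ hA (hS.mult_Xi.shift c) 0
    have a2 := hφ _ _ _ _ hA (hS.mult_conj_Xi.shift c) 0
    simp only [zero_mul, ex_zero, mul_one, Mean.shift_avg, add_sub_cancel_right] at a0 a1 a2
    have := hS.Z_tendsto.mul (a0.add (tendsto_sign_mul (by simpa using a1.add a2)))
    simpa using this
  refine str_same _ _ (key c hc) (fun φ hφ => ?_) (fun x _ => ?_) h
  · have := key (fun _ => 0) (by simp [(hS.adm 0).zero]) φ hφ
    simpa only [Mean.shift_avg, add_zero] using this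
  · simp only [Mean.shift_avg, avg_ex_shift]
    refine (hS.adm 0).ex_shift c hc x _ ?_
    simp only [bias, Mean.rew_avg]
    simpa using hS.Z_tendsto.mul (hS.dens_ex x)

lemma Spec.bias_shift_unif {A : AddSubgroup ℝ} {ψ : ℤ → ℂ} (h : Str A ψ) (ε : ℝ) (hε : 0 < ε) :
    ∀ᶠ i : ℕ in atTop, ∀ c : ℤ, n c ≤ 1 / ((i : ℝ) + 1) →
      ‖((bias θ (ν 0) i).avg fun s => ψ (s + c)) - (bias θ (ν 0) i).avg ψ‖ ≤ ε := by
  have hex : ∀ i : ℕ, ∃ c : ℤ, n c ≤ 1 / ((i : ℝ) + 1) ∧
      (‖((bias θ (ν 0) i).avg fun s => ψ (s + c)) - (bias θ (ν 0) i).avg ψ‖ ≤ ε →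
        ∀ c : ℤ, n c ≤ 1 / ((i : ℝ) + 1) →
          ‖((bias θ (ν 0) i).avg fun s => ψ (s + c)) - (bias θ (ν 0) i).avg ψ‖ ≤ ε) := by
    intro i
    by_cases hb : ∀ c : ℤ, n c ≤ 1 / ((i : ℝ) + 1) →
        ‖((bias θ (ν 0) i).avg fun s => ψ (s + c)) - (bias θ (ν 0) i).avg ψ‖ ≤ ε
    · exact ⟨0, by rw [(hS.adm 0).zero]; positivity, fun _ => hb⟩
    · push Not at hb
      obtain ⟨c, h1, h2⟩ := hb
      exact ⟨c, h1, fun h3 => absurd h3 (not_le.2 h2)⟩
  choose c h1 h2 using hex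
  have := hS.bias_shift h c (squeeze_zero (fun i => (hS.adm 0).nonneg _) h1
    tendsto_one_div_add_atTop_nhds_zero_nat)
  rw [NormedAddGroup.tendsto_nhds_zero] at this
  filter_upwards [this ε hε] with i hi
  exact h2 i hi.le

lemma Spec.bias_dom {Y : Type} [TopologicalSpace Y] [CompactSpace Y] [T2Space Y]
    [SecondCountableTopology Y] [MeasurableSpace Y] [BorelSpace Y] (m : Measure Y)
    [IsProbabilityMeasure m] (S : Y → Y) (hSc : Continuous S) (hinv : m.map S = m) (o : ℤ → Y)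
    (ho : ∀ s, o (s + 1) = S (o s)) (hm : m (closure (Set.range o))ᶜ = 0)
    (A : AddSubgroup ℝ) (hA : A.FG) (hstr : ∀ F : Y → ℂ, Continuous F → Str A fun s => F (o s)) :
    ∃ D : ℝ, 0 < D ∧ ∀ h : Y → ℝ, Continuous h → (∀ z, 0 ≤ h z) → ∀ l : ℂ,
      Tendsto (fun i => (bias θ (ν 0) i).avg fun s => (h (o s) : ℂ)) atTop (𝓝 l) →
      l.re ≤ D * ∫ z, h z ∂m := by
  obtain ⟨K, hK⟩ := hS.triv A hA
  obtain ⟨D, hD0, hD⟩ := hS.dom K
  have key : ∀ h : Y → ℂ, Continuous h →
      Tendsto (fun i => (ν K i).avg fun s => h (o s)) atTop (𝓝 (∫ z, h z ∂m)) := by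
    intro h hh
    obtain ⟨l, hl⟩ := str_conv (ν K) (hS.adm K).null (fun x _ => ⟨_, (hS.adm K).lim x⟩)
      (hstr h hh)
    rw [integral_eq_of_uniform m S hSc hinv o ho hm h hh l fun u => ?_]
    · exact hl
    have := str_same (fun i => unif (u i) i) (ν K) (unif_adm u).null (hS.adm K).null
      (fun x hx => by
        have := ((unif_adm u).lim x).sub ((hS.adm K).lim x)
        rwa [hK x hx, sub_self] at this) (hstr h hh)
    have := this.add hl
    simpa only [sub_add_cancel, zero_add, unif_avg] using this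
  refine ⟨3 * (D + 1), by positivity, fun h hh hh0 l hl => ?_⟩
  have k1 := key (fun z => (h z : ℂ)) (Complex.continuous_ofReal.comp hh)
  rw [integral_complex_ofReal] at k1
  simp only [Mean.avg_ofReal] at k1 hl
  have k2 := (Complex.continuous_re.tendsto _).comp k1
  have k3 := (Complex.continuous_re.tendsto _).comp hl
  refine le_of_tendsto_of_tendsto' k3 (k2.const_mul (3 * (D + 1))) fun i => ?_
  simp only [Function.comp, Complex.ofReal_re]
  refine (bias_avgR_le _ _ _ _ fun s => hh0 _).trans ?_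
  have k4 := hD i (fun s => h (o s)) fun s => hh0 _
  have k5 := (ν K i).avgR_nonneg (g := fun s => h (o s)) fun s => hh0 _
  nlinarith

lemma Spec.osc_shift (C : ℤ → ℂ) (hC1 : ∀ s, ‖C s‖ ≤ 1)
    (hC : ∀ (s : ℤ) (i : ℕ) (B : ℝ), (∀ k, i ≤ k → dd (s * θ k) = 0) →
      (∀ I, ∑ k ∈ range I, dZ (s * (3 * θ k)) ≤ B) →
      ‖C s - om (-Qd i fun k => dd (s * θ k))‖ ≤ 12 * B) :
    ∃ g : ℕ → ℤ → ℝ, (∀ i s, |g i s| ≤ 1) ∧
      (∀ i, ∀ j ∈ (bias θ (ν 0) i).S, ∀ c : ℤ, n c ≤ 1 / 1000 →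
        g i ((bias θ (ν 0) i).p j) ≤ (-1) ^ i * (C ((bias θ (ν 0) i).p j + c)).re) ∧
      ∀ᶠ i in atTop, 1 / 40 ≤ (bias θ (ν 0) i).avgR (g i) := by
  have hsum : ∀ (s : ℤ) (I : ℕ), ∑ k ∈ range I, dZ (s * (3 * θ k)) ≤ ∑' k, dZ (s * (3 * θ k)) :=
    fun s I => (hS.summ s).sum_le_tsum _ fun _ _ => dZ_nonneg _
  set E : ℕ → ℤ → ℝ := fun i s =>
    (-1) ^ i * (Xi θ i s).re + 1 / 8 - 25 * (∑' k, dZ (s * (3 * θ k)) + 1 / 16000) with hE
  have hd : ∀ i s, 0 < dens θ i s := fun i s => by linarith [half_le_dens θ i s]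
  have habs : ∀ (i : ℕ) (s : ℤ), |(-1) ^ i * (C s).re| ≤ 1 := fun i s => by
    rw [abs_mul, abs_pow, abs_neg, abs_one, one_pow, one_mul]
    exact (Complex.abs_re_le_norm _).trans (hC1 s)
  have key : ∀ i, ∀ j ∈ (ν 0 i).S, ∀ c : ℤ, n c ≤ 1 / 1000 →
      E i ((ν 0 i).p j) / dens θ i ((ν 0 i).p j) ≤ (-1) ^ i * (C ((ν 0 i).p j + c)).re := by
    intro i j hj c hc
    set s := (ν 0 i).p j with hs
    have c1 : ∀ I, ∑ k ∈ range I, dZ (c * (3 * θ k)) ≤ 1 / 16000 := by
      intro I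
      have a1 := hS.fine c I
      have a2 : ∑ k ∈ range I, dZ (c * (3 * θ k)) ≤ ∑ k ∈ range I, 3 * dZ (c * θ k) :=
        sum_le_sum fun k _ => by rw [mul_left_comm]; exact dZ_three_mul _
      rw [← mul_sum] at a1 a2
      linarith
    have c2 : ∀ I, ∑ k ∈ range I, dZ ((s + c : ℤ) * (3 * θ k)) ≤
        ∑' k, dZ (s * (3 * θ k)) + 1 / 16000 := by
      intro I
      refine le_trans (sum_le_sum (g := fun k => dZ (s * (3 * θ k)) + dZ (c * (3 * θ k)))
        fun k _ => ?_) ?_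
      · push_cast; rw [add_mul]; exact dZ_add_le _ _
      · rw [sum_add_distrib]; linarith [hsum s I, c1 I]
    rw [div_le_iff₀ (hd _ _), mul_assoc, mul_comm _ (dens θ i s)]
    refine osc_point θ i s _ _ ?_ ?_
    · by_cases ht : ∑' k, dZ (s * (3 * θ k)) + 1 / 16000 < 1 / 2
      · have e : ∀ k, dd (((s + c : ℤ) : ℝ) * θ k) = dd (s * θ k) := by
          intro k
          have b1 := single_le_sum (f := fun k => dZ (s * (3 * θ k))) (fun _ _ => dZ_nonneg _)
            (self_mem_range_succ k)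
          have b2 := single_le_sum (f := fun k => dZ (c * (3 * θ k))) (fun _ _ => dZ_nonneg _)
            (self_mem_range_succ k)
          have b3 := single_le_sum (f := fun k => 48 * dZ (c * θ k))
            (fun _ _ => mul_nonneg (by norm_num) (dZ_nonneg _)) (self_mem_range_succ k)
          push_cast
          rw [add_mul, dd_add, dd_eq_zero (c * θ k) (by linarith [hS.fine c (k + 1)]), add_zero]
          rw [mul_left_comm, mul_left_comm 3 (c : ℝ)]
          linarith [hsum s (k + 1), c1 (k + 1)]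
        have := hC (s + c) i _ (fun k hk => (e k).trans (hS.supp i j hj k hk)) c2
        simp only [e] at this
        exact this
      · refine (norm_sub_le _ _).trans ?_
        rw [norm_om]
        linarith [hC1 (s + c)]
    · refine (one_sub_chi_le θ i _).trans ?_
      rw [← mul_sum]
      linarith [hsum s (2 * i)]
  refine ⟨fun i s => max (-1) (min 1 (E i s / dens θ i s)), fun i s => ?_, fun i j hj c hc => ?_, ?_⟩
  · exact abs_le.2 ⟨le_max_left _ _, max_le (by norm_num) (min_le_left _ _)⟩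
  · exact max_le (abs_le.1 (habs i _)).1 ((min_le_right _ _).trans (key i j hj c hc))
  · have h1 := hS.ex_Xi 0
    simp only [zero_mul, ex_zero, one_mul] at h1
    rw [NormedAddGroup.tendsto_nhds_zero] at h1
    filter_upwards [h1 (1 / 40) (by norm_num)] with i hi
    have h2 := (ν 0 i).avgR_mono_on (f := E i)
      (g := fun s => dens θ i s * max (-1) (min 1 (E i s / dens θ i s))) fun j hj => by
        have a1 := (key i j hj 0 (by rw [(hS.adm 0).zero]; norm_num)).trans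
          (abs_le.1 (habs i _)).2
        rw [min_eq_right a1, ← div_le_iff₀' (hd _ _)]
        exact le_max_right _ _
    simp only [hE] at h2
    rw [Mean.avgR_sub, Mean.avgR_add, Mean.avgR_const_mul, Mean.avgR_const_mul, Mean.avgR_add,
      Mean.avgR_const, Mean.avgR_const, ← Mean.re_avg] at h2
    have h3 : |(-1) ^ i * ((ν 0 i).avg (Xi θ i)).re| ≤ 1 / 40 := by
      rw [abs_mul, abs_pow, abs_neg, abs_one, one_pow, one_mul]
      exact (Complex.abs_re_le_norm _).trans hi.le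
    have h4 := hS.moment i
    rw [bias, Mean.rew_avgR, le_inv_mul_iff₀ (by linarith [half_le_avg_dens θ (ν 0 i) i])]
    simp only [hE]
    linarith [(abs_le.1 h3).1, avg_dens_le θ (ν 0 i) i]

end

end Pool.Agent.P.MP_fc4783_an
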