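import Pool.Agent.P.MP_fc4783_an.R.Orth
import Pool.Agent.P.MP_fc4783_an.R.Shift

/-! One strictly increasing integer sequence from a sequence of finitely supported means. -/

namespace Pool.Agent.P.MP_fc4783_an

open Filter Topology Finset

lemma inc_range {M : Type*} [AddCommMonoid M] (R : ℕ) (f : ℤ → M) :
    ∑ r ∈ range R, f r = ∑ r ∈ Ico (0 : ℤ) R, f r := by
  refine sum_nbij' (fun r => (r : ℤ)) Int.toNat ?_ ?_ ?_ ?_ ?_
  · intro a ha
    simp only [mem_range, mem_Ico] at ha ⊢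
    omega
  · intro a ha
    simp only [mem_range, mem_Ico] at ha ⊢
    omega
  · intro a _
    simp
  · intro a ha
    simp only [mem_Ico] at ha
    omega
  · intro a _
    rfl

lemma inc_window (F : ℕ → ℂ) (C η : ℝ) (hF : ∀ n, ‖F n‖ ≤ C) (hη : 0 ≤ η) (R : ℕ) (hR : 0 < R)
    (h : ∀ m, ‖∑ r ∈ range R, F (m * R + r)‖ ≤ η * R) (N : ℕ) :
    ‖∑ n ∈ range N, F n‖ ≤ η * N + C * R := by
  have h1 : ∀ m, ‖∑ n ∈ range (m * R), F n‖ ≤ η * (m * R) := by
    intro m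
    induction m with
    | zero => simp
    | succ m ih =>
      rw [add_mul, one_mul, sum_range_add]
      refine (norm_add_le _ _).trans ?_
      push_cast
      linarith [h m]
  have hC : 0 ≤ C := (norm_nonneg _).trans (hF 0)
  have e : N = N / R * R + N % R := (Nat.div_add_mod' N R).symm
  have h2 : ‖∑ r ∈ range (N % R), F (N / R * R + r)‖ ≤ C * R := by
    refine (norm_sum_le _ _).trans ((sum_le_card_nsmul _ _ C fun j _ => hF _).trans ?_)
    rw [card_range, nsmul_eq_mul, mul_comm]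
    gcongr
    exact (Nat.mod_lt _ hR).le
  have h3 : ((N / R : ℕ) : ℝ) * R ≤ N := by exact_mod_cast Nat.div_mul_le_self N R
  nth_rewrite 1 [e]
  rw [sum_range_add]
  refine (norm_add_le _ _).trans (add_le_add ((h1 _).trans ?_) h2)
  gcongr

lemma inc_Ico (F : ℕ → ℂ) (η D : ℝ) (hη : 0 ≤ η) (h : ∀ N : ℕ, ‖∑ n ∈ range N, F n‖ ≤ η * N + D)
    {a M : ℕ} (ha : a ≤ M) : ‖∑ n ∈ Ico a M, F n‖ ≤ 2 * η * M + 2 * D := by
  rw [sum_Ico_eq_sub _ ha]
  refine (norm_sub_le _ _).trans ?_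
  have : η * a ≤ η * M := by gcongr
  linarith [h a, h M]

lemma round_window (μ : Mean) (R : ℕ) (σ : ℤ → ℕ × ℕ) (hσ : ∀ r, σ r ∈ μ.S) (Φ : ℤ → ℤ → ℂ) :
    ∑ r ∈ Ico (0 : ℤ) R, (Φ r (μ.p (σ r)) - μ.avg (Φ r)) =
      ∑ a ∈ μ.S, ∑ r ∈ Ico (0 : ℤ) R, (rdD μ R σ a r : ℂ) * Φ r (μ.p a) := by
  rw [sum_comm]
  refine sum_congr rfl fun r hr => ?_
  simp only [rdD, hr, if_true, Complex.ofReal_sub, sub_mul, sum_sub_distrib, Mean.avg]
  congr 1
  rw [sum_eq_single (σ r) (fun b _ hb => by simp [hb.symm]) fun h => absurd (hσ r) h]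
  simp

lemma round_abs (μ : Mean) (R : ℕ) (σ : ℤ → ℕ × ℕ) :
    ∑ a ∈ μ.S, ∑ r ∈ Ico (0 : ℤ) R, |rdD μ R σ a r| ≤ 2 * R := by
  rw [sum_comm]
  refine (sum_le_card_nsmul _ _ 2 fun r hr => ?_).trans (by simp [mul_comm])
  calc _ ≤ ∑ a ∈ μ.S, ((if σ r = a then 1 else 0) + μ.w a) := by
        refine sum_le_sum fun a _ => ?_
        simp only [rdD, hr, if_true]
        have := μ.nonneg a
        rw [abs_le]
        split_ifs <;> constructor <;> linarith
    _ ≤ 2 := by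
        rw [sum_add_distrib, μ.sum_one, sum_ite_eq]
        split_ifs <;> norm_num

section
variable (A D : ℕ → ℕ) (hA : ∀ i, (i + 1) * (A i + D i + D (i + 1) + 1) ≤ A (i + 1))
  (u v : ℕ → ℂ) (C : ℝ) (huv : ∀ n i, ‖u n - v i‖ ≤ C)
  (h : ∀ ε : ℝ, 0 < ε → ∀ᶠ i in atTop, ∀ M, A i ≤ M → M ≤ A (i + 1) →
    ‖∑ n ∈ Ico (A i) M, (u n - v i)‖ ≤ ε * M + C * D i)

include hA in
lemma inc_mono : StrictMono A := strictMono_nat_of_lt_succ fun i => by
  have := hA i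
  nlinarith

include hA huv h

lemma inc_main (ε : ℝ) (hε : 0 < ε) : ∀ᶠ i in atTop, ∀ N, A (i + 1) ≤ N → N ≤ A (i + 2) →
    ‖∑ n ∈ range N, u n - (A (i + 1) * v i + (N - A (i + 1)) * v (i + 1))‖ ≤ ε * N := by
  have hAm := inc_mono A D hA
  have hC : 0 ≤ C := (norm_nonneg _).trans (huv 0 0)
  have h0 := h (ε / 3) (by positivity)
  have h6 : Tendsto (fun i : ℕ => C * (1 / ((i : ℝ) + 1))) atTop (𝓝 0) := by
    simpa using tendsto_one_div_add_atTop_nhds_zero_nat.const_mul C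
  filter_upwards [h0, (tendsto_add_atTop_nat 1).eventually h0,
    h6.eventually_lt_const (u := ε / 3) (by positivity)] with i k1 k2 k3 N h1 h2
  replace k1 := k1 (A (i + 1)) (hAm.monotone (Nat.le_succ i)) le_rfl
  replace k2 := k2 N h1 h2
  have k0 : ‖∑ n ∈ range (A i), (u n - v i)‖ ≤ C * A i := by
    refine (norm_sum_le _ _).trans ((sum_le_card_nsmul _ _ C fun j _ => huv _ _).trans ?_)
    simp [mul_comm]
  have e : ∑ n ∈ range N, u n - (A (i + 1) * v i + (N - A (i + 1)) * v (i + 1)) =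
      ∑ n ∈ range (A i), (u n - v i) + ∑ n ∈ Ico (A i) (A (i + 1)), (u n - v i) +
      ∑ n ∈ Ico (A (i + 1)) N, (u n - v (i + 1)) := by
    rw [sum_range_add_sum_Ico _ (hAm.monotone (Nat.le_succ i)), ← sum_range_add_sum_Ico _ h1,
      sum_sub_distrib, sum_sub_distrib, sum_const, sum_const, card_range, Nat.card_Ico,
      nsmul_eq_mul, nsmul_eq_mul, Nat.cast_sub h1]
    ring
  rw [e]
  refine norm_add₃_le.trans ?_
  have hN : (A (i + 1) : ℝ) ≤ N := by exact_mod_cast h1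
  have hi : (0 : ℝ) < i + 1 := by positivity
  have c1 : (A i : ℝ) + D i + D (i + 1) ≤ 1 / (i + 1) * N := by
    rw [one_div, le_inv_mul_iff₀ hi]
    have : ((i : ℝ) + 1) * (A i + D i + D (i + 1) + 1) ≤ A (i + 1) := by exact_mod_cast hA i
    nlinarith
  have c2 : C * ((A i : ℝ) + D i + D (i + 1)) ≤ ε / 3 * N := by
    calc _ ≤ C * (1 / (i + 1) * N) := by gcongr
      _ = C * (1 / (i + 1)) * N := by ring
      _ ≤ _ := by gcongr
  have c3 : ε / 3 * A (i + 1) ≤ ε / 3 * N := by gcongr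
  linarith

lemma inc_lim (l : ℂ) (hl : Tendsto v atTop (𝓝 l)) :
    Tendsto (fun N : ℕ => (N : ℂ)⁻¹ * ∑ n ∈ range N, u n) atTop (𝓝 l) := by
  have hAm := inc_mono A D hA
  rw [Metric.tendsto_atTop] at hl ⊢
  intro ε hε
  obtain ⟨i₀, hi₀⟩ := hl (ε / 3) (by positivity)
  obtain ⟨i₁, hi₁⟩ := eventually_atTop.1 (inc_main A D hA u v C huv h (ε / 3) (by positivity))
  refine ⟨A (i₀ + i₁ + 1), fun N hN => ?_⟩
  obtain ⟨i, h0, h1, h2⟩ : ∃ i, i₀ + i₁ ≤ i ∧ A (i + 1) ≤ N ∧ N < A (i + 2) := by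
    classical
    have hh : ∃ i, N < A (i + 1) := ⟨N, hAm.le_apply (x := N + 1)⟩
    have a1 := Nat.find_spec hh
    have a2 : i₀ + i₁ < Nat.find hh := by
      by_contra hc
      have := hAm.monotone (Nat.succ_le_succ (not_lt.1 hc))
      exact absurd (a1.trans_le this) (not_lt.2 hN)
    obtain ⟨i, hi⟩ : ∃ i, Nat.find hh = i + 1 := ⟨Nat.find hh - 1, by omega⟩
    exact ⟨i, by omega, not_lt.1 (Nat.find_min hh (by omega)), by rwa [hi] at a1⟩
  have hN0 : (0 : ℝ) < N := by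
    exact_mod_cast (lt_of_le_of_lt (Nat.zero_le _) (hAm (Nat.lt_succ_self i))).trans_le h1
  have hNc : (N : ℂ) ≠ 0 := by exact_mod_cast hN0.ne'
  have b1 := hi₀ i (by omega)
  have b2 := hi₀ (i + 1) (by omega)
  have b4 := hi₁ i (by omega) N h1 h2.le
  rw [dist_eq_norm] at b1 b2 ⊢
  have e1 : (N : ℂ)⁻¹ * ∑ n ∈ range N, u n - l = (N : ℂ)⁻¹ * (∑ n ∈ range N, u n -
      (A (i + 1) * v i + (N - A (i + 1)) * v (i + 1))) +
      ((A (i + 1) / N : ℝ) : ℂ) * (v i - l) + ((1 - A (i + 1) / N : ℝ) : ℂ) * (v (i + 1) - l) := by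
    push_cast; field_simp; ring
  have t0 : (0 : ℝ) ≤ A (i + 1) / N := by positivity
  have t1 : (A (i + 1) : ℝ) / N ≤ 1 := div_le_one_of_le₀ (by exact_mod_cast h1) hN0.le
  rw [e1]
  refine norm_add₃_le.trans_lt ?_
  simp only [norm_mul, norm_inv, Complex.norm_real, Complex.norm_natCast]
  rw [Real.norm_of_nonneg t0, Real.norm_of_nonneg (by linarith)]
  have c1 : (N : ℝ)⁻¹ * ‖∑ n ∈ range N, u n -
      (A (i + 1) * v i + (N - A (i + 1)) * v (i + 1))‖ ≤ ε / 3 := by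
    rw [inv_mul_le_iff₀ hN0]
    linarith
  nlinarith [norm_nonneg (v i - l), norm_nonneg (v (i + 1) - l)]

end

theorem exists_inc (μ : ℕ → Mean) (n : ℤ → ℝ) (hn : ∀ (j : ℕ) (q : ℤ), n (j * q) ≤ j * n q)
    (hq : ∀ ε : ℝ, 0 < ε → ∀ M : ℤ, ∃ q : ℤ, M < q ∧ n q ≤ ε) :
    ∃ a : ℕ → ℤ, StrictMono a ∧ 0 ≤ a 0 ∧
      (∀ (ψ : ℤ → ℂ) (C : ℝ) (l : ℂ), (∀ s, ‖ψ s‖ ≤ C) → Orth ψ →
        (∀ ε : ℝ, 0 < ε → ∀ᶠ i : ℕ in atTop, ∀ c : ℤ, n c ≤ 1 / ((i : ℝ) + 1) →
          ‖((μ i).avg fun s => ψ (s + c)) - (μ i).avg ψ‖ ≤ ε) →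
        Tendsto (fun i => (μ i).avg ψ) atTop (𝓝 l) → Tendsto (ces a ψ) atTop (𝓝 l)) ∧
      ∃ r : ℕ → ℕ, Tendsto r atTop atTop ∧ ∀ (ψ : ℤ → ℂ) (g : ℕ → ℤ → ℝ), (∀ s, ‖ψ s‖ ≤ 1) →
        (∀ i s, |g i s| ≤ 1) → (∀ i, ∀ j ∈ (μ i).S, ∀ c : ℤ, n c ≤ 1 / 1000 →
          g i ((μ i).p j) ≤ (-1) ^ i * (ψ ((μ i).p j + c)).re) →
        ∀ ε : ℝ, 0 < ε → ∀ᶠ i in atTop,
          (μ i).avgR (g i) - ε ≤ (-1) ^ i * (ces a ψ (r i)).re := by
  choose R σ hR hσ hU using fun i : ℕ =>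
    exists_round (μ i) (1 / ((i : ℝ) + 1) / ((μ i).S.card + 1)) (by positivity)
  obtain ⟨A, hA0, hA⟩ : ∃ A : ℕ → ℕ, A 0 = 0 ∧
      ∀ i, A (i + 1) = (i + 1) * (A i + 2 * R i + 2 * R (i + 1) + 1) :=
    ⟨fun i => Nat.rec 0 (fun i a => (i + 1) * (a + 2 * R i + 2 * R (i + 1) + 1)) i, rfl,
      fun _ => rfl⟩
  have hA' : ∀ i, (i + 1) * (A i + 2 * R i + 2 * R (i + 1) + 1) ≤ A (i + 1) := fun i => (hA i).ge
  have hAm : StrictMono A := inc_mono A (fun i => 2 * R i) hA'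
  have hpos : ∀ i, 0 < A (i + 1) := fun i => lt_of_le_of_lt (Nat.zero_le _) (hAm (Nat.lt_succ_self i))
  obtain ⟨idx, hidx⟩ := seq_idx hAm
  have hex : ∀ k, ∃ i, A i ≤ k ∧ k < A (i + 1) := by
    intro k
    induction k with
    | zero => exact ⟨0, hA0.le, hpos 0⟩
    | succ k ih =>
      obtain ⟨i, h1, h2⟩ := ih
      rcases lt_or_ge (k + 1) (A (i + 1)) with h | h
      · exact ⟨i, by omega, h⟩
      · exact ⟨i + 1, h, by have := hAm (lt_add_one (i + 1)); omega⟩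
  set P : ℕ → ℤ := fun i => ∑ j ∈ (μ i).S, |(μ i).p j| with hP
  have hP1 : ∀ i r, |(μ i).p (σ i r)| ≤ P i := fun i r =>
    single_le_sum (f := fun j => |(μ i).p j|) (fun _ _ => abs_nonneg _) (hσ i r)
  have hP0 : ∀ i, 0 ≤ P i := fun i => (abs_nonneg _).trans (hP1 i 0)
  choose Q hQ1 hQ2 using fun (i : ℕ) (M : ℤ) =>
    hq (1 / ((i : ℝ) + 1) / A (i + 1)) (by have := hpos i; positivity) M
  obtain ⟨q, hq0, hq1⟩ : ∃ q : ℕ → ℤ, q 0 = Q 0 (2 * P 0) ∧
      ∀ i, q (i + 1) = Q (i + 1) (q i + 2 * P (i + 1)) :=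
    ⟨fun i => Nat.rec (Q 0 (2 * P 0)) (fun i a => Q (i + 1) (a + 2 * P (i + 1))) i, rfl,
      fun _ => rfl⟩
  have hq2 : ∀ i, q i + 2 * P (i + 1) < q (i + 1) := fun i => by rw [hq1]; exact hQ1 _ _
  have hq3 : ∀ i, 2 * P i < q i := by
    intro i
    induction i with
    | zero => rw [hq0]; exact hQ1 _ _
    | succ i ih => linarith [hq2 i, hP0 i]
  have hq4 : ∀ i k : ℕ, k < A (i + 1) → n ((k + 1 : ℕ) * q i) ≤ 1 / ((i : ℝ) + 1) := by
    intro i k hk
    have a1 : n (q i) ≤ 1 / ((i : ℝ) + 1) / A (i + 1) := by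
      cases i with
      | zero => rw [hq0]; exact hQ2 _ _
      | succ i => rw [hq1]; exact hQ2 _ _
    have a2 : (0 : ℝ) < A (i + 1) := by exact_mod_cast hpos i
    have a3 : ((k + 1 : ℕ) : ℝ) ≤ A (i + 1) := by exact_mod_cast hk
    calc _ ≤ ((k + 1 : ℕ) : ℝ) * n (q i) := hn _ _
      _ ≤ ((k + 1 : ℕ) : ℝ) * (1 / ((i : ℝ) + 1) / A (i + 1)) := by gcongr
      _ ≤ A (i + 1) * (1 / ((i : ℝ) + 1) / A (i + 1)) := by gcongr
      _ = _ := by field_simp
  set pt : ℕ → ℕ → ℤ := fun i k => (μ i).p (σ i (k % R i : ℕ)) with hpt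
  set b : ℕ → ℤ := fun k => pt (idx k) k + (k + 1 : ℕ) * q (idx k) with hb
  have hbm : ∀ k, b k < b (k + 1) := by
    intro k
    obtain ⟨i, h1, h2⟩ := hex k
    have a1 := abs_le.1 (hP1 i (k % R i : ℕ))
    simp only [hb, hpt, hidx i k h1 h2]
    rcases lt_or_ge (k + 1) (A (i + 1)) with h | h
    · have a2 := abs_le.1 (hP1 i ((k + 1) % R i : ℕ))
      rw [hidx i (k + 1) (by omega) h]
      push_cast at a1 a2 ⊢
      linarith [hq3 i]
    · have a2 := abs_le.1 (hP1 (i + 1) ((k + 1) % R (i + 1) : ℕ))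
      rw [hidx (i + 1) (k + 1) h (by have := hAm (lt_add_one (i + 1)); omega)]
      have a3 : ((k : ℤ) + 1) * q i ≤ (k + 1) * q (i + 1) := by
        gcongr
        linarith [hq2 i, hP0 (i + 1)]
      push_cast at a1 a2 ⊢
      linarith [hq2 i, hq3 i, hP0 i, hP0 (i + 1)]
  have hces : ∀ (ψ : ℤ → ℂ) (N : ℕ), ces (fun k => if k = 0 then 0 else b (k - 1)) ψ N =
      (N : ℂ)⁻¹ * ∑ k ∈ range N, ψ (b k) := by
    intro ψ N
    rw [← seq_ces, ces, ces]
    congr 1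
    refine sum_congr rfl fun k hk => ?_
    rw [if_neg (by have := (mem_Icc.1 hk).1; omega)]
  -- the estimate on one block
  have block : ∀ (i : ℕ) (Φ : ℤ → ℤ → ℂ) (C η : ℝ), 0 ≤ η → (∀ c s, ‖Φ c s‖ ≤ C) →
      (∀ c : ℤ, ‖∑ a ∈ (μ i).S, ∑ r ∈ Ico (0 : ℤ) (R i),
        (rdD (μ i) (R i) (σ i) a r : ℂ) * Φ (c + r) ((μ i).p a)‖ ≤ η * R i) →
      ∀ M, A i ≤ M → ‖∑ k ∈ Ico (A i) M, (Φ k (pt i k) - (μ i).avg (Φ k))‖ ≤
        2 * η * M + 2 * C * (2 * R i : ℕ) := by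
    intro i Φ C η hη hΦ hw M hM
    refine (inc_Ico (fun k => Φ k (pt i k) - (μ i).avg (Φ k)) η (2 * C * R i) hη
      (inc_window _ (2 * C) η (fun k => ?_) hη (R i) (hR i) fun m => ?_) hM).trans
      (le_of_eq (by push_cast; ring))
    · exact (norm_sub_le _ _).trans (by linarith [hΦ k (pt i k), (μ i).norm_avg_le (hΦ k)])
    · refine le_trans (le_of_eq ?_) (hw (m * R i : ℕ))
      rw [← round_window (μ i) (R i) (σ i) (hσ i) fun r => Φ ((m * R i : ℕ) + r), ← inc_range]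
      congr 1
      refine sum_congr rfl fun r hr => ?_
      simp only [hpt, Nat.mul_add_mod_of_lt (mem_range.1 hr), Nat.cast_add]
  have hcard : ∀ (i : ℕ) (C : ℝ), 0 ≤ C →
      ∑ a ∈ (μ i).S, C * (1 / ((i : ℝ) + 1) / ((μ i).S.card + 1) * R i) ≤
        C * (1 / ((i : ℝ) + 1)) * R i := by
    intro i C hC
    rw [sum_const, nsmul_eq_mul]
    calc _ ≤ (((μ i).S.card : ℝ) + 1) * (C * (1 / ((i : ℝ) + 1) / ((μ i).S.card + 1) * R i)) := by
          gcongr; linarith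
      _ = _ := by field_simp
  have h6 : ∀ C ε : ℝ, 0 < ε → ∀ᶠ i : ℕ in atTop, C * (1 / ((i : ℝ) + 1)) < ε := fun C ε hε =>
    (by simpa using tendsto_one_div_add_atTop_nhds_zero_nat.const_mul C :
      Tendsto (fun i : ℕ => C * (1 / ((i : ℝ) + 1))) atTop (𝓝 0)).eventually_lt_const hε
  refine ⟨fun k => if k = 0 then 0 else b (k - 1), strictMono_nat_of_lt_succ fun k => ?_, by simp,
    fun ψ C l hψ hO hsh hl => ?_, fun i => A (i + 1),
    hAm.tendsto_atTop.comp (tendsto_add_atTop_nat 1), fun ψ g hψ hg hgψ ε hε => ?_⟩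
  · cases k with
    | zero =>
      have a1 := abs_le.1 (hP1 0 (0 % R 0 : ℕ))
      simp only [hb, hpt, hidx 0 0 hA0.le (hpos 0), if_true, zero_add, one_ne_zero, if_false,
        Nat.sub_self]
      push_cast at a1 ⊢
      linarith [hq3 0, hP0 0]
    | succ k => simpa using hbm k
  · rw [show ces _ ψ = _ from funext (hces ψ)]
    refine inc_lim A (fun i => 2 * R i) hA' _ _ (2 * C) (fun k i => (norm_sub_le _ _).trans
      (by linarith [hψ (b k), (μ i).norm_avg_le hψ])) (fun ε hε => ?_) l hl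
    obtain ⟨C', hC', H⟩ := hO 0 (ε / 9) (by positivity)
    simp only [zero_mul, ex_zero, one_mul] at H
    filter_upwards [hsh (ε / 3) (by positivity), h6 C' (ε / 9) (by positivity)]
      with i k1 k2 M h1 h2
    have k3 := block i (fun c s => ψ (s + (c + 1) * q i)) C (ε / 3) (by positivity)
      (fun _ _ => hψ _) (fun c => by
        refine (norm_sum_le _ _).trans ((sum_le_sum fun a ha => le_trans (le_of_eq ?_)
          (H (R i) _ _ ((μ i).p a + (c + 1) * q i) (q i) (by positivity) (hU i a ha))).trans ?_)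
        · congr 1
          refine sum_congr rfl fun r _ => ?_
          congr 2
          ring
        · rw [sum_add_distrib, ← mul_sum (a := ε / 9)]
          have a1 := hcard i C' hC'
          have a2 := round_abs (μ i) (R i) (σ i)
          have a3 : C' * (1 / ((i : ℝ) + 1)) * R i ≤ ε / 9 * R i := by gcongr
          nlinarith) M h1
    have k4 : ‖∑ k ∈ Ico (A i) M, (((μ i).avg fun s => ψ (s + ((k : ℤ) + 1) * q i)) -
        (μ i).avg ψ)‖ ≤ ε / 3 * M := by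
      refine (norm_sum_le _ _).trans ((sum_le_card_nsmul _ _ (ε / 3) fun k hk => ?_).trans ?_)
      · have := hq4 i k ((mem_Ico.1 hk).2.trans_le h2)
        push_cast at this
        exact k1 _ this
      · rw [Nat.card_Ico, nsmul_eq_mul, mul_comm]
        gcongr
        omega
    have e : ∑ k ∈ Ico (A i) M, (ψ (b k) - (μ i).avg ψ) =
        ∑ k ∈ Ico (A i) M, (ψ (pt i k + ((k : ℤ) + 1) * q i) -
          (μ i).avg fun s => ψ (s + ((k : ℤ) + 1) * q i)) +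
        ∑ k ∈ Ico (A i) M, (((μ i).avg fun s => ψ (s + ((k : ℤ) + 1) * q i)) - (μ i).avg ψ) := by
      rw [← sum_add_distrib]
      refine sum_congr rfl fun k hk => ?_
      simp only [hb, hidx i k (mem_Ico.1 hk).1 ((mem_Ico.1 hk).2.trans_le h2)]
      push_cast
      ring
    rw [e]
    refine (norm_add_le _ _).trans ?_
    linarith
  · filter_upwards [h6 16 ε hε, h6 1000 1 one_pos] with i k1 k2
    have hi : (0 : ℝ) < i + 1 := by positivity
    have hN0 : (0 : ℝ) < A (i + 1) := by exact_mod_cast hpos i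
    have hle := hAm.monotone (Nat.le_succ i)
    have k3 := block i (fun _ s => (g i s : ℂ)) 1 (1 / ((i : ℝ) + 1)) (by positivity)
      (fun _ s => by simpa using hg i s) (fun _ => by
        refine (norm_sum_le _ _).trans ((sum_le_sum fun a ha => ?_).trans
          ((hcard i 1 zero_le_one).trans (by rw [one_mul])))
        rw [← sum_mul, norm_mul, ← Complex.ofReal_sum, Complex.norm_real, Complex.norm_real,
          mul_comm]
        exact mul_le_mul (hg i _) ((hU i a ha).abs_sum_le (by positivity)) (abs_nonneg _)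
          zero_le_one) (A (i + 1)) hle
    simp only [Mean.avg_ofReal, ← Complex.ofReal_sub, ← Complex.ofReal_sum, Complex.norm_real,
      Real.norm_eq_abs] at k3
    have hsgn : ∀ s : ℤ, -1 ≤ (-1) ^ i * (ψ s).re := fun s => by
      refine (abs_le.1 ?_).1
      rw [abs_mul, abs_pow, abs_neg, abs_one, one_pow, one_mul]
      exact (Complex.abs_re_le_norm _).trans (hψ s)
    have hv : |(μ i).avgR (g i)| ≤ 1 := by
      have := (μ i).norm_avg_le (ψ := fun s => (g i s : ℂ)) (C := 1) fun s => by simpa using hg i s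
      simpa [Mean.avg_ofReal] using this
    have k4 : ∑ k ∈ Ico (A i) (A (i + 1)), g i (pt i k) ≤
        ∑ k ∈ Ico (A i) (A (i + 1)), (-1) ^ i * (ψ (b k)).re := by
      refine sum_le_sum fun k hk => ?_
      simp only [hb, hidx i k (mem_Ico.1 hk).1 (mem_Ico.1 hk).2]
      refine hgψ i _ (hσ i _) _ ((hq4 i k (mem_Ico.1 hk).2).trans ?_)
      linarith
    have k5 : -(A i : ℝ) ≤ ∑ k ∈ range (A i), (-1) ^ i * (ψ (b k)).re := by
      have := card_nsmul_le_sum (range (A i)) (fun k => (-1 : ℝ) ^ i * (ψ (b k)).re) (-1)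
        fun k _ => hsgn _
      simpa using this
    have c1 : (A i : ℝ) + 2 * R i ≤ 1 / (i + 1) * A (i + 1) := by
      rw [one_div, le_inv_mul_iff₀ hi]
      have : ((i : ℝ) + 1) * (A i + 2 * R i + 2 * R (i + 1) + 1) ≤ A (i + 1) := by
        exact_mod_cast hA' i
      have : (0 : ℝ) ≤ R (i + 1) := by positivity
      nlinarith
    rw [sum_sub_distrib, sum_const, Nat.card_Ico, nsmul_eq_mul, Nat.cast_sub hle] at k3
    have e : (-1) ^ i * (ces (fun k => if k = 0 then 0 else b (k - 1)) ψ (A (i + 1))).re =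
        (A (i + 1) : ℝ)⁻¹ * (∑ k ∈ range (A i), (-1) ^ i * (ψ (b k)).re +
          ∑ k ∈ Ico (A i) (A (i + 1)), (-1) ^ i * (ψ (b k)).re) := by
      rw [hces, sum_range_add_sum_Ico _ hle, ← mul_sum, ← Complex.re_sum, ← Complex.ofReal_natCast,
        ← Complex.ofReal_inv, Complex.re_ofReal_mul]
      ring
    rw [e, le_inv_mul_iff₀ hN0]
    have c2 : 16 * (1 / ((i : ℝ) + 1)) * A (i + 1) ≤ ε * A (i + 1) := by gcongr
    have c3 : (0 : ℝ) ≤ A i := by positivity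
    have c4 : (0 : ℝ) ≤ R i := by positivity
    have c5 : (0 : ℝ) ≤ 1 / (i + 1) * A (i + 1) := by positivity
    have c6 : (A i : ℝ) * (μ i).avgR (g i) ≤ A i := mul_le_of_le_one_right c3 (abs_le.1 hv).2
    have c7 := (abs_le.1 k3).1
    push_cast at c7
    linarith

end Pool.Agent.P.MP_fc4783_an
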