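import Pool.Agent.P.MP_fc4783_an.NonConv

/-!
The literal reading: if `F` is only asked to be continuous almost everywhere for the Haar measure
of the whole nilmanifold, every bounded sequence is a basic nilsequence, and then the double
averages converge by bounded convergence.
-/

namespace Pool.Agent.P.MP_fc4783_an

open Filter Topology Finset MeasureTheory

/-- The plane, written multiplicatively. -/
abbrev LitG : Type := Multiplicative (EuclideanSpace ℝ (Fin 2))

/-- The integer lattice. -/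
def litΓ : Subgroup LitG where
  carrier := {x | ∀ i, ∃ z : ℤ, x.toAdd i = z}
  one_mem' := fun _ => ⟨0, by simp⟩
  mul_mem' := fun {x y} hx hy i => by
    obtain ⟨a, ha⟩ := hx i
    obtain ⟨b, hb⟩ := hy i
    exact ⟨a + b, by simp [ha, hb]⟩
  inv_mem' := fun {x} hx i => by
    obtain ⟨a, ha⟩ := hx i
    exact ⟨-a, by simp [ha]⟩

lemma lit_discrete : DiscreteTopology litΓ := by
  refine discreteTopology_of_isOpen_singleton_one ?_
  have h : IsOpen {x : litΓ | ‖(x : LitG).toAdd‖ < 1} :=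
    isOpen_lt (continuous_toAdd.comp continuous_subtype_val).norm continuous_const
  convert h using 1
  ext x
  simp only [Set.mem_singleton_iff, Set.mem_setOf_eq]
  constructor
  · rintro rfl
    simp
  · intro hx
    refine Subtype.ext (Multiplicative.toAdd.injective ?_)
    ext i
    obtain ⟨z, hz⟩ := x.2 i
    have h1 := (PiLp.norm_apply_le (x : LitG).toAdd i).trans_lt hx
    rw [hz, Real.norm_eq_abs] at h1
    have h2 : z = 0 := Int.abs_lt_one_iff.1 (by exact_mod_cast h1)
    simp [hz, h2]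

lemma lit_compact : CompactSpace (LitG ⧸ litΓ) := by
  refine ⟨?_⟩
  have h := (isCompact_closedBall (0 : EuclideanSpace ℝ (Fin 2)) 2).image
    (f := fun x => ((Multiplicative.ofAdd x : LitG) : LitG ⧸ litΓ))
    (QuotientGroup.continuous_mk.comp continuous_ofAdd)
  convert h using 1
  refine (Set.eq_univ_of_forall fun z => ?_).symm
  induction z using QuotientGroup.induction_on with
  | H x =>
    refine ⟨WithLp.toLp 2 fun i => Int.fract (x.toAdd i), ?_, ?_⟩
    · rw [mem_closedBall_zero_iff, EuclideanSpace.norm_eq]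
      refine Real.sqrt_le_iff.2 ⟨by norm_num, ?_⟩
      have : ∀ i, ‖Int.fract (x.toAdd i)‖ ^ 2 ≤ 1 := fun i => by
        rw [Real.norm_of_nonneg (Int.fract_nonneg _)]
        exact pow_le_one₀ (Int.fract_nonneg _) (Int.fract_lt_one _).le
      rw [Fin.sum_univ_two]
      linarith [this 0, this 1]
    · refine QuotientGroup.eq.2 fun i => ⟨⌊x.toAdd i⌋, ?_⟩
      rw [toAdd_mul, toAdd_inv, toAdd_ofAdd, PiLp.add_apply, PiLp.neg_apply, PiLp.toLp_apply,
        neg_add_eq_sub, Int.self_sub_fract]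

/-- The coordinate characters of the torus. -/
noncomputable def litπ (i : Fin 2) : LitG ⧸ litΓ →* ℂ :=
  QuotientGroup.lift litΓ
    { toFun := fun x => ex (x.toAdd i)
      map_one' := by simp
      map_mul' := fun x y => by simp [ex_add] } fun x hx => by
    obtain ⟨z, hz⟩ := hx i
    simp [hz]

lemma litπ_mk (i : Fin 2) (x : LitG) : litπ i (x : LitG ⧸ litΓ) = ex (x.toAdd i) := rfl

lemma litπ_cont (i : Fin 2) : Continuous (litπ i) :=
  (QuotientGroup.isQuotientMap_mk litΓ).continuous_iff.2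
    (continuous_ex.comp ((PiLp.continuous_apply 2 _ i).comp continuous_toAdd))

lemma lit_inj {k l : ℤ} (h : ex (k * √2) = ex (l * √2)) : k = l := by
  have h1 : ex ((k - l : ℤ) * √2) = 1 := by
    rw [← ex_neg_mul (l * √2), ← h, ← ex_add]
    congr 1
    push_cast
    ring
  obtain ⟨z, hz⟩ := (ex_eq_one_iff _).1 h1
  by_contra hne
  exact (irrational_sqrt_two.intCast_mul (sub_ne_zero.2 hne)).ne_int z hz

lemma lit_smul (g : LitG) (z : LitG ⧸ litΓ) : g • z = (g : LitG ⧸ litΓ) * z := by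
  induction z using QuotientGroup.induction_on with
  | H x => rfl

theorem lit_all (ψ : ℤ → ℂ) (C : ℝ) (hψ : ∀ k, ‖ψ k‖ ≤ C) :
    ∃ (d : ℕ) (G : Type) (_ : Group G) (_ : TopologicalSpace G) (_ : T2Space G)
      (_ : SecondCountableTopology G) (_ : ChartedSpace (EuclideanSpace ℝ (Fin d)) G)
      (_ : LieGroup (modelWithCornersSelf ℝ (EuclideanSpace ℝ (Fin d))) ((⊤ : ℕ∞) : WithTop ℕ∞) G)
      (Γ : Subgroup G) (b : G) (y : G ⧸ Γ) (F : G ⧸ Γ → ℂ),
      Group.IsNilpotent G ∧ Group.nilpotencyClass G ≤ 2 ∧ DiscreteTopology Γ ∧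
        CompactSpace (G ⧸ Γ) ∧ ((∃ C : ℝ, ∀ z, ‖F z‖ ≤ C) ∧
          ∃ (_ : MeasurableSpace (G ⧸ Γ)) (_ : BorelSpace (G ⧸ Γ)) (m : Measure (G ⧸ Γ)),
            IsProbabilityMeasure m ∧ (∀ g : G, MeasurePreserving (fun z => g • z) m m) ∧
            ∀ᵐ z ∂m, ContinuousAt F z) ∧
        ∀ k : ℤ, ψ k = F (b ^ k • y) := by
  classical
  let E := EuclideanSpace ℝ (Fin 2)
  letI : ChartedSpace E LitG := inferInstanceAs (ChartedSpace E E)
  have hL : LieAddGroup (modelWithCornersSelf ℝ E) ((⊤ : ℕ∞) : WithTop ℕ∞) E := inferInstance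
  have hLie : LieGroup (modelWithCornersSelf ℝ E) ((⊤ : ℕ∞) : WithTop ℕ∞) LitG :=
    { compatible := hL.compatible
      contMDiff_mul := hL.contMDiff_add
      contMDiff_inv := hL.contMDiff_neg }
  have := lit_compact
  borelize (LitG ⧸ litΓ)
  let m : Measure (LitG ⧸ litΓ) := Measure.haarMeasure ⊤
  have hm : IsProbabilityMeasure m := ⟨by
    rw [← TopologicalSpace.PositiveCompacts.coe_top]
    exact Measure.haarMeasure_self⟩
  let b : LitG := Multiplicative.ofAdd (EuclideanSpace.single 0 √2)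
  have hb : ∀ (i : Fin 2) (k : ℤ), litπ i (b ^ k • (1 : LitG ⧸ litΓ)) =
      ex (k * if i = 0 then √2 else 0) := by
    intro i k
    rw [lit_smul, mul_one, litπ_mk]
    congr 1
    simp [b, Pi.single_apply]
  have hH : ∀ t : ℝ, IsClosed {z | litπ 1 z = ex t} := fun t =>
    isClosed_eq (litπ_cont 1) continuous_const
  have hnull : m {z | litπ 1 z = ex 0} = 0 := by
    have h1 : ∀ t : ℝ, m {z | litπ 1 z = ex t} = m {z | litπ 1 z = ex 0} := by
      intro t
      rw [← measure_preimage_mul m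
        ((Multiplicative.ofAdd (EuclideanSpace.single 1 t) : LitG) : LitG ⧸ litΓ)]
      congr 1
      ext z
      simp [litπ_mk, ex_ne_zero]
    by_contra hne
    have h2 := measure_iUnion (μ := m) (f := fun k : ℤ => {z | litπ 1 z = ex (k * √2)})
      (fun k l hkl => Set.disjoint_left.2 fun z h h' => hkl (lit_inj (h.symm.trans h')))
      fun k => (hH _).measurableSet
    simp only [h1, ENNReal.tsum_const_eq_top_of_ne_zero hne] at h2
    exact measure_ne_top _ _ h2
  refine ⟨2, LitG, inferInstance, inferInstance, inferInstanceAs (T2Space E),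
    inferInstanceAs (SecondCountableTopology E), inferInstance, hLie, litΓ, b, 1,
    fun z => if h : ∃ k : ℤ, z = b ^ k • (1 : LitG ⧸ litΓ) then ψ h.choose else 0,
    inferInstance, CommGroup.nilpotencyClass_le_one.trans one_le_two, lit_discrete, this,
    ⟨⟨C, fun z => ?_⟩, inferInstance, inferInstance, m, hm, fun g => ?_, ?_⟩, fun k => ?_⟩
  · beta_reduce
    split_ifs
    · exact hψ _
    · simpa using (norm_nonneg _).trans (hψ 0)
  · simp only [lit_smul]
    exact measurePreserving_mul_left m _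
  · refine measure_mono_null (fun z hz => ?_) hnull
    by_contra hz'
    refine hz ?_
    rw [Set.mem_setOf_eq]
    refine continuousAt_const.congr (f := fun _ => (0 : ℂ)) ?_
    filter_upwards [(hH 0).isOpen_compl.mem_nhds hz'] with w hw
    rw [dif_neg]
    rintro ⟨k, rfl⟩
    exact hw (by simpa using hb 1 k)
  · have h : ∃ l : ℤ, b ^ k • (1 : LitG ⧸ litΓ) = b ^ l • (1 : LitG ⧸ litΓ) := ⟨k, rfl⟩
    simp only [dif_pos h]
    congr 1
    have h1 := congrArg (litπ 0) h.choose_spec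
    rw [hb, hb] at h1
    exact lit_inj (by simpa using h1)

lemma measurePreserving_zpow {X : Type} [MeasurableSpace X] {μ : Measure X} (T : X ≃ᵐ X)
    (hT : MeasurePreserving T μ μ) (s : ℤ) :
    MeasurePreserving (T.toEquiv ^ s : Equiv.Perm X) μ μ := by
  induction s using Int.induction_on with
  | zero => simpa using MeasurePreserving.id μ
  | succ k ih => rw [zpow_add_one, Equiv.Perm.coe_mul]; exact ih.comp hT
  | pred k ih => rw [zpow_sub_one, Equiv.Perm.coe_mul]; exact ih.comp (hT.symm T)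

theorem lit_conv (a : ℕ → ℤ)
    (ha : ∀ (ψ : ℤ → ℂ) (C : ℝ), (∀ k, ‖ψ k‖ ≤ C) → ∃ l, Tendsto (ces a ψ) atTop (𝓝 l))
    {X : Type} [MeasurableSpace X] (μ : Measure X) [IsProbabilityMeasure μ] (T : X ≃ᵐ X)
    (hT : MeasurePreserving T μ μ) (f g : X → ℂ) (hf : MemLp f ⊤ μ) (hg : MemLp g ⊤ μ) :
    ∃ h : X → ℂ, MemLp h 2 μ ∧ Tendsto (fun N : ℕ => eLpNorm (fun x =>
      (N : ℂ)⁻¹ * ∑ n ∈ Icc 1 N,
        f ((T.toEquiv ^ a n) x) * g ((T.toEquiv ^ (2 * a n)) x) - h x) 2 μ) atTop (𝓝 0) := by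
  have hb : ∀ f : X → ℂ, MemLp f ⊤ μ → ∃ C : ℝ, 0 ≤ C ∧ ∀ᵐ x ∂μ, ∀ s : ℤ,
      ‖f ((T.toEquiv ^ s) x)‖ ≤ C := by
    intro f hf
    refine ⟨(eLpNorm f ⊤ μ).toReal, ENNReal.toReal_nonneg, ae_all_iff.2 fun s => ?_⟩
    refine (measurePreserving_zpow T hT s).quasiMeasurePreserving.ae
      (p := fun x => ‖f x‖ ≤ (eLpNorm f ⊤ μ).toReal) ?_
    filter_upwards [ae_le_eLpNormEssSup (f := f) (μ := μ)] with x hx
    rw [← toReal_enorm]
    exact ENNReal.toReal_mono hf.2.ne (by rwa [eLpNorm_exponent_top])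
  obtain ⟨C, hC0, hC⟩ := hb f hf
  obtain ⟨D, hD0, hD⟩ := hb g hg
  set A : ℕ → X → ℂ := fun N x =>
    ces a (fun s => f ((T.toEquiv ^ s) x) * g ((T.toEquiv ^ (2 * s)) x)) N with hA
  have hm : ∀ N, AEStronglyMeasurable (A N) μ := fun N =>
    (Finset.aestronglyMeasurable_fun_sum _ fun n _ =>
      (hf.1.comp_measurePreserving (measurePreserving_zpow T hT _)).mul
        (hg.1.comp_measurePreserving (measurePreserving_zpow T hT _))).const_mul _
  have hp : ∀ᵐ x ∂μ, ∀ s : ℤ, ‖f ((T.toEquiv ^ s) x) * g ((T.toEquiv ^ (2 * s)) x)‖ ≤ C * D := by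
    filter_upwards [hC, hD] with x h1 h2 s
    rw [norm_mul]
    exact mul_le_mul (h1 _) (h2 _) (norm_nonneg _) hC0
  have hbd : ∀ᵐ x ∂μ, ∀ N, ‖A N x‖ ≤ C * D := by
    filter_upwards [hp] with x hx N
    rcases N.eq_zero_or_pos with rfl | hN
    · simp only [hA, ces]
      simp
      positivity
    simp only [hA, ces]
    rw [norm_mul, norm_inv, Complex.norm_natCast, inv_mul_le_iff₀ (by exact_mod_cast hN)]
    refine (norm_sum_le _ _).trans ((sum_le_sum fun k _ => hx (a k)).trans ?_)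
    simp
  have hl : ∀ᵐ x ∂μ, Tendsto (fun N => A N x) atTop (𝓝 (limUnder atTop fun N => A N x)) := by
    filter_upwards [hp] with x hx
    exact tendsto_nhds_limUnder (ha _ _ hx)
  have hh : MemLp (fun x => limUnder atTop fun N => A N x) 2 μ := by
    refine MemLp.of_bound (aestronglyMeasurable_of_tendsto_ae atTop hm hl) (C * D) ?_
    filter_upwards [hl, hbd] with x h1 h2
    exact le_of_tendsto' h1.norm h2
  refine ⟨_, hh, tendsto_Lp_finite_of_tendsto_ae one_le_two (by simp) hm hh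
    (unifIntegrable_of one_le_two (by simp) hm fun ε _ => ⟨⟨C * D + 1, by positivity⟩, fun N => ?_⟩)
    hl⟩
  rw [eLpNorm_congr_ae (g := 0), eLpNorm_zero]
  · exact zero_le
  filter_upwards [hbd] with x hx
  refine Set.indicator_of_notMem (fun h => ?_) _
  have : C * D + 1 ≤ ‖A N x‖ := h
  linarith [hx N]

end Pool.Agent.P.MP_fc4783_an
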