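import Pool.Agent.P.MP_fc4783_an.R.Inc
import Pool.Agent.P.MP_fc4783_an.R.Lit

/-! The strictly increasing counterexample, before unfolding the definitions of the hand-in. -/

namespace Pool.Agent.P.MP_fc4783_an

open Filter Topology Finset MeasureTheory

lemma ces_sub_le (a : ℕ → ℤ) (φ ψ : ℤ → ℂ) (h : ℤ → ℝ) (hh : ∀ s, ‖φ s - ψ s‖ ≤ h s) (N : ℕ) :
    ‖ces a φ N - ces a ψ N‖ ≤ (ces a (fun s => (h s : ℂ)) N).re := by
  rw [ces, ces, ces, ← mul_sub, ← sum_sub_distrib, norm_mul, norm_inv, Complex.norm_natCast,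
    ← Complex.ofReal_sum, ← Complex.ofReal_natCast, ← Complex.ofReal_inv, ← Complex.ofReal_mul,
    Complex.ofReal_re]
  gcongr
  exact (norm_sum_le _ _).trans (sum_le_sum fun k _ => hh _)

lemma ces_approx (a : ℕ → ℤ) (ψ : ℤ → ℂ) (h : ∀ ε : ℝ, 0 < ε → ∃ φ : ℤ → ℂ,
    (∃ l, Tendsto (ces a φ) atTop (𝓝 l)) ∧ ∀ k, ‖ψ k - φ k‖ ≤ ε) :
    ∃ l, Tendsto (ces a ψ) atTop (𝓝 l) := by
  refine conv_of_approx fun ε hε => ?_
  obtain ⟨φ, ⟨l, hl⟩, hψφ⟩ := h ε hε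
  refine ⟨_, l, hl, ?_⟩
  filter_upwards [eventually_gt_atTop 0] with N hN
  rw [ces, ces, ← mul_sub, ← sum_sub_distrib, norm_mul, norm_inv, Complex.norm_natCast,
    inv_mul_le_iff₀ (by exact_mod_cast hN)]
  refine (norm_sum_le _ _).trans ((sum_le_sum fun k _ => hψφ (a k)).trans ?_)
  simp

lemma commute_of_class {G : Type} [Group G] [Group.IsNilpotent G]
    (hn : Group.nilpotencyClass G ≤ 2) (a b c : G) : Commute (a * b * a⁻¹ * b⁻¹) c := by
  have h3 := Subgroup.lowerCentralSeries_eq_bot_iff_nilpotencyClass_le.2 hn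
  have h4 : a * b * a⁻¹ * b⁻¹ * c * (a * b * a⁻¹ * b⁻¹)⁻¹ * c⁻¹ ∈
      (⊤ : Subgroup G).lowerCentralSeries 2 :=
    Subgroup.commutator_mem_commutator
      (Subgroup.commutator_mem_commutator (Subgroup.mem_top a) (Subgroup.mem_top b))
      (Subgroup.mem_top c)
  rw [h3, Subgroup.mem_bot] at h4
  exact commutatorElement_eq_one_iff_commute.1 h4

theorem inc_main_thm : ∃ a : ℕ → ℤ, StrictMono a ∧ 0 ≤ a 0 ∧
    (∀ (d : ℕ) (G : Type) [Group G] [TopologicalSpace G] [T2Space G] [SecondCountableTopology G]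
      [ChartedSpace (EuclideanSpace ℝ (Fin d)) G]
      [LieGroup (modelWithCornersSelf ℝ (EuclideanSpace ℝ (Fin d))) ((⊤ : ℕ∞) : WithTop ℕ∞) G]
      (Γ : Subgroup G) (b : G) (y : G ⧸ Γ) (F : G ⧸ Γ → ℂ),
      Group.IsNilpotent G → Group.nilpotencyClass G ≤ 2 → DiscreteTopology Γ →
      CompactSpace (G ⧸ Γ) → (Continuous F ∨ (∃ C : ℝ, ∀ z, ‖F z‖ ≤ C) ∧
        ∃ (_ : MeasurableSpace (G ⧸ Γ)) (_ : BorelSpace (G ⧸ Γ)) (m : Measure (G ⧸ Γ)),
          IsProbabilityMeasure m ∧ MeasurePreserving (fun z => b • z) m m ∧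
          m (closure (Set.range fun k : ℤ => b ^ k • y))ᶜ = 0 ∧
          ∀ᵐ z ∂m, ContinuousWithinAt F (closure (Set.range fun k : ℤ => b ^ k • y)) z) →
      ∃ l, Tendsto (ces a fun k => F (b ^ k • y)) atTop (𝓝 l)) ∧
    ∃ (X : Type) (_ : MeasurableSpace X) (μ : Measure X) (T : X ≃ᵐ X) (f g : X → ℂ),
      IsProbabilityMeasure μ ∧ MeasurePreserving T μ μ ∧ MeasurePreserving T.symm μ μ ∧
      MemLp f ⊤ μ ∧ MemLp g ⊤ μ ∧
      ¬ ∃ h : X → ℂ, MemLp h 2 μ ∧ Tendsto (fun N : ℕ => eLpNorm (fun x =>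
        (N : ℂ)⁻¹ * ∑ n ∈ Finset.Icc 1 N,
          f ((T.toEquiv ^ a n) x) * g ((T.toEquiv ^ (2 * a n)) x) - h x) 2 μ) atTop (𝓝 0) := by
  obtain ⟨θ, ν, n, n', L, hS⟩ := exists_spec
  obtain ⟨a, ha, ha0, ha1, r, hr, ha2⟩ := exists_inc (bias θ (ν 0)) n
    (fun j q => (hS.adm 0).nat_mul_le j q) (hS.adm 0).exists_large
  obtain ⟨X, mX, μ, hμ, T, f, hT, hf, hf1, hC⟩ := exists_system θ
  have hfL : MemLp f ⊤ μ := memLp_top_of_bound hf.aestronglyMeasurable 1 (ae_of_all _ hf1)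
  refine ⟨a, ha, ha0, ?_, X, mX, μ, T, f, f, hμ, hT, hT.symm T, hfL, hfL, ?_⟩
  · intro d G _ _ _ _ _ _ Γ b y F hn1 hn2 hd hc hF
    have : IsTopologicalGroup G := topologicalGroup_of_lieGroup
      (modelWithCornersSelf ℝ (EuclideanSpace ℝ (Fin d))) ((⊤ : ℕ∞) : WithTop ℕ∞)
    have h2 := commute_of_class hn2
    obtain ⟨A, hA, hstr⟩ := nil_str (d := d) G h2 Γ b y
    have key : ∀ F : G ⧸ Γ → ℂ, Continuous F → ∃ l,
        Tendsto (fun i => (bias θ (ν 0) i).avg fun k => F (b ^ k • y)) atTop (𝓝 l) ∧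
        Tendsto (ces a fun k => F (b ^ k • y)) atTop (𝓝 l) := by
      intro F hF
      obtain ⟨l, hl⟩ := hS.bias_str (hstr F hF)
      obtain ⟨C, hFC⟩ := (isCompact_range hF.norm).bddAbove
      have k1 := nil_orth (d := d) G h2 Γ b y F hF
      have k2 := hstr F hF
      have k3 : ∀ s : ℤ, ‖(fun k : ℤ => F (b ^ k • y)) s‖ ≤ C := fun s => hFC ⟨_, rfl⟩
      generalize (fun k : ℤ => F (b ^ k • y)) = ψ at hl k1 k2 k3 ⊢
      exact ⟨l, hl, ha1 ψ C l k3 k1 (hS.bias_shift_unif k2) hl⟩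
    rcases hF with hF | ⟨⟨C, hFC⟩, _, _, m, hm1, hm2, hm3, hm4⟩
    · obtain ⟨l, -, hl⟩ := key F hF
      exact ⟨l, hl⟩
    · obtain ⟨D, hD0, hD⟩ := hS.bias_dom m (fun z => b • z) (continuous_const_smul b) hm2.map_eq
        (fun k : ℤ => b ^ k • y) (fun s => by rw [← mul_smul, add_comm, zpow_one_add]) hm3 A hA hstr
      refine conv_of_approx fun ε hε => ?_
      obtain ⟨g, h, hg, hh, hh0, hgh, hint⟩ := sandwich m _ F C hFC hm4 (ε / (2 * D))
        (by positivity)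
      obtain ⟨l, -, hl⟩ := key g hg
      obtain ⟨l', k1, k2⟩ := key (fun z => (h z : ℂ)) (Complex.continuous_ofReal.comp hh)
      have k3 : l'.re < ε := by
        calc _ ≤ D * ∫ z, h z ∂m := hD h hh hh0 l' k1
          _ ≤ D * (ε / (2 * D)) := by gcongr
          _ = ε / 2 := by field_simp
          _ < ε := by linarith
      refine ⟨_, l, hl, ?_⟩
      filter_upwards [((Complex.continuous_re.tendsto _).comp k2).eventually (gt_mem_nhds k3)]
        with N hN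
      exact (ces_sub_le a _ _ (fun k => h (b ^ k • y))
        (fun s => hgh _ (subset_closure ⟨s, rfl⟩)) N).trans hN.le
  · rintro ⟨h, hh, hl⟩
    have h1 := (ces_tendsto_of_L2 μ T f hf hf1 a h hh hl).comp hr
    have hC1 : ∀ s : ℤ, ‖∫ x, f x * f ((T.toEquiv ^ s) x) * f ((T.toEquiv ^ (2 * s)) x) ∂μ‖ ≤ 1 :=
      fun s => by
        refine (norm_integral_le_of_norm_le_const (C := 1) (ae_of_all _ fun x => ?_)).trans
          (by simp)
        rw [norm_mul, norm_mul]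
        exact mul_le_one₀ (mul_le_one₀ (hf1 _) (by positivity) (hf1 _)) (by positivity) (hf1 _)
    obtain ⟨g, g1, g2, g3⟩ := hS.osc_shift _ hC1 hC
    refine not_tendsto_of_osc ?_ _ (h1.const_mul ((2 : ℝ) : ℂ))
    filter_upwards [g3, ha2 _ g hC1 g1 g2 (1 / 200) (by norm_num)] with i k1 k2
    rw [Complex.re_ofReal_mul, Function.comp]
    linarith

end Pool.Agent.P.MP_fc4783_an
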