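import Pool.Agent.P.MP_fc4783_an.R.Round
import Pool.Agent.P.MP_fc4783_an.NilStr

/-!
Two-step nilsequences are orthogonal, uniformly along arithmetic progressions, to sequences that
are uniform of order three.
-/

namespace Pool.Agent.P.MP_fc4783_an

open Filter Topology Finset

/-- Orthogonality to uniform sequences along all arithmetic progressions. -/
def Orth (ψ : ℤ → ℂ) : Prop :=
  ∀ y ε : ℝ, 0 < ε → ∃ C : ℝ, 0 ≤ C ∧ ∀ (R : ℕ) (ξ : ℤ → ℝ) (v : ℝ) (x q : ℤ), 0 ≤ v →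
    Unif R ξ v → ‖∑ r ∈ Ico (0 : ℤ) R, (ξ r : ℂ) * (ex (y * (x + r * q : ℤ)) * ψ (x + r * q))‖ ≤
      C * v + ε * ∑ r ∈ Ico (0 : ℤ) R, |ξ r|

/-- Sequences whose multiplicative derivatives are uniformly almost periodic. -/
def Quad (ψ : ℤ → ℂ) : Prop :=
  ∀ ε : ℝ, 0 < ε → ∃ (τ : Type) (T : Finset τ) (K : ℝ), 0 ≤ K ∧ ∀ h : ℤ,
    ∃ (c : τ → ℂ) (α : τ → ℝ), (∀ m ∈ T, ‖c m‖ ≤ K) ∧
      ∀ s : ℤ, ‖ψ (s + h) * (starRingEnd ℂ) (ψ s) - ∑ m ∈ T, c m * ex (α m * s)‖ ≤ ε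

lemma Quad.mul_ex {ψ : ℤ → ℂ} (h : Quad ψ) (y : ℝ) : Quad fun s => ex (y * s) * ψ s := by
  intro ε hε
  obtain ⟨τ, T, K, hK, H⟩ := h ε hε
  refine ⟨τ, T, K, hK, fun k => ?_⟩
  obtain ⟨c, α, h1, h2⟩ := H k
  refine ⟨fun m => ex (y * k) * c m, α, fun m hm => by simpa using h1 m hm, fun s => ?_⟩
  refine le_trans (le_of_eq ?_) (h2 s)
  rw [← one_mul ‖ψ (s + k) * _ - _‖, ← norm_ex (y * k), ← norm_mul]
  congr 1
  simp only [mul_assoc, ← mul_sum]
  rw [map_mul, conj_ex, show y * ((s + k : ℤ) : ℝ) = y * k + y * s by push_cast; ring, ex_add]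
  have := ex_neg_mul (y * s)
  linear_combination (ex (y * k) * ψ (s + k) * (starRingEnd ℂ) (ψ s)) * this

lemma Quad.bound {ψ : ℤ → ℂ} (h : Quad ψ) (ε : ℝ) (hε : 0 < ε) :
    ∃ C : ℝ, 0 ≤ C ∧ ∀ (R : ℕ) (ξ : ℤ → ℝ) (v : ℝ) (x q : ℤ), 0 ≤ v → Unif R ξ v →
      ‖∑ r ∈ Ico (0 : ℤ) R, (ξ r : ℂ) * ψ (x + r * q)‖ ≤
        C * v + ε * ∑ r ∈ Ico (0 : ℤ) R, |ξ r| := by
  obtain ⟨τ, T, K, hK, H⟩ := h (ε ^ 2) (by positivity)
  choose c α h1 h2 using H
  refine ⟨√(T.card * K), Real.sqrt_nonneg _, fun R ξ v x q hv hU => ?_⟩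
  set J := Icc (-(R : ℤ)) R with hJ
  set I := Ico (0 : ℤ) R with hI
  have hs : 0 ≤ ∑ r ∈ I, |ξ r| := sum_nonneg fun _ _ => abs_nonneg _
  have a1 := rd_sq_le R (fun r => (ξ r : ℂ) * ψ (x + r * q)) fun r hr => by simp [hU.1 r hr]
  have a2 : ∀ k ∈ J, ‖∑ r ∈ I, (ξ (r + k) : ℂ) * ψ (x + (r + k) * q) *
      (starRingEnd ℂ) ((ξ r : ℂ) * ψ (x + r * q))‖ ≤
      ∑ m ∈ T, K * ‖∑ r ∈ I, ((ξ (r + k) * ξ r : ℝ) : ℂ) * ex (α (k * q) m * q * r)‖ +
        ε ^ 2 * ∑ r ∈ I, |ξ (r + k)| * |ξ r| := by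
    intro k _
    have e : ∑ r ∈ I, (ξ (r + k) : ℂ) * ψ (x + (r + k) * q) *
        (starRingEnd ℂ) ((ξ r : ℂ) * ψ (x + r * q)) =
        ∑ m ∈ T, (c (k * q) m * ex (α (k * q) m * x)) *
          ∑ r ∈ I, ((ξ (r + k) * ξ r : ℝ) : ℂ) * ex (α (k * q) m * q * r) +
        ∑ r ∈ I, ((ξ (r + k) * ξ r : ℝ) : ℂ) * (ψ (x + r * q + k * q) *
          (starRingEnd ℂ) (ψ (x + r * q)) -
          ∑ m ∈ T, c (k * q) m * ex (α (k * q) m * (x + r * q : ℤ))) := by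
      simp only [mul_sum (s := I)]
      rw [sum_comm, ← sum_add_distrib]
      refine sum_congr rfl fun r _ => ?_
      rw [map_mul, Complex.conj_ofReal, show x + (r + k) * q = x + r * q + k * q by ring,
        mul_sub, mul_sum]
      have : ∑ m ∈ T, c (k * q) m * ex (α (k * q) m * x) *
          (((ξ (r + k) * ξ r : ℝ) : ℂ) * ex (α (k * q) m * q * r)) =
          ∑ m ∈ T, ((ξ (r + k) * ξ r : ℝ) : ℂ) *
            (c (k * q) m * ex (α (k * q) m * (x + r * q : ℤ))) := by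
        refine sum_congr rfl fun m _ => ?_
        rw [show α (k * q) m * ((x + r * q : ℤ) : ℝ) = α (k * q) m * x + α (k * q) m * q * r by
          push_cast; ring, ex_add]
        ring
      rw [this]
      push_cast
      ring
    rw [e]
    refine (norm_add_le _ _).trans (add_le_add ?_ ?_)
    · refine (norm_sum_le _ _).trans (sum_le_sum fun m hm => ?_)
      rw [norm_mul, norm_mul, norm_ex, mul_one]
      gcongr
      exact h1 _ m hm
    · rw [mul_sum]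
      refine (norm_sum_le _ _).trans (sum_le_sum fun r _ => ?_)
      rw [norm_mul, Complex.norm_real, Real.norm_eq_abs, abs_mul, mul_comm]
      gcongr
      exact h2 _ _
  have a3 : ∑ k ∈ J, ∑ m ∈ T, K * ‖∑ r ∈ I, ((ξ (r + k) * ξ r : ℝ) : ℂ) *
      ex (α (k * q) m * q * r)‖ ≤ T.card * K * v ^ 2 := by
    rw [sum_comm, mul_assoc, ← nsmul_eq_mul, ← sum_const]
    refine sum_le_sum fun m _ => ?_
    rw [← mul_sum]
    gcongr
    exact hU.2 fun k => α (k * q) m * q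
  have a4 : ∑ k ∈ J, ε ^ 2 * ∑ r ∈ I, |ξ (r + k)| * |ξ r| = (ε * ∑ r ∈ I, |ξ r|) ^ 2 := by
    rw [← mul_sum, sum_comm, mul_pow, sq (∑ r ∈ I, |ξ r|), mul_sum (s := I) (a := ∑ r ∈ I, |ξ r|)]
    congr 1
    refine sum_congr rfl fun r hr => ?_
    rw [← sum_mul, rd_shift R (fun r => |ξ r|) (fun r hr => by simp [hU.1 r hr]) r hr]
  have a5 := a1.trans (sum_le_sum a2)
  rw [sum_add_distrib, a4] at a5
  refine (pow_le_pow_iff_left₀ (norm_nonneg _) (by positivity) two_ne_zero).1 (a5.trans ?_)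
  have a6 : √(T.card * K) ^ 2 = T.card * K := Real.sq_sqrt (by positivity)
  have a7 : 0 ≤ √(T.card * K) * v * (ε * ∑ r ∈ I, |ξ r|) := by positivity
  nlinarith

lemma Quad.orth {ψ : ℤ → ℂ} (h : Quad ψ) : Orth ψ := fun y ε hε => (h.mul_ex y).bound ε hε

lemma Orth.zero : Orth fun _ => 0 := fun y ε hε => ⟨0, le_rfl, fun R ξ v x q _ _ => by
  simp only [mul_zero, sum_const_zero, norm_zero, zero_mul, zero_add]
  exact mul_nonneg hε.le (sum_nonneg fun _ _ => abs_nonneg _)⟩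

lemma Orth.add {φ ψ : ℤ → ℂ} (h1 : Orth φ) (h2 : Orth ψ) : Orth fun s => φ s + ψ s := by
  intro y ε hε
  obtain ⟨C, hC, H⟩ := h1 y (ε / 2) (by positivity)
  obtain ⟨C', hC', H'⟩ := h2 y (ε / 2) (by positivity)
  refine ⟨C + C', by positivity, fun R ξ v x q hv hU => ?_⟩
  simp only [mul_add, sum_add_distrib]
  refine (norm_add_le _ _).trans ?_
  linarith [H R ξ v x q hv hU, H' R ξ v x q hv hU]

lemma Orth.const_mul {ψ : ℤ → ℂ} (h : Orth ψ) (c : ℂ) : Orth fun s => c * ψ s := by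
  intro y ε hε
  obtain ⟨C, hC, H⟩ := h y (ε / (‖c‖ + 1)) (by positivity)
  refine ⟨(‖c‖ + 1) * C, by positivity, fun R ξ v x q hv hU => ?_⟩
  have e : ∑ r ∈ Ico (0 : ℤ) R, (ξ r : ℂ) * (ex (y * (x + r * q : ℤ)) * (c * ψ (x + r * q))) =
      c * ∑ r ∈ Ico (0 : ℤ) R, (ξ r : ℂ) * (ex (y * (x + r * q : ℤ)) * ψ (x + r * q)) := by
    rw [mul_sum]
    exact sum_congr rfl fun r _ => by ring
  rw [e, norm_mul]
  calc _ ≤ (‖c‖ + 1) * (C * v + ε / (‖c‖ + 1) * ∑ r ∈ Ico (0 : ℤ) R, |ξ r|) := by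
        gcongr
        exacts [by linarith, H R ξ v x q hv hU]
    _ = _ := by field_simp

lemma Orth.mul_ex {ψ : ℤ → ℂ} (h : Orth ψ) (y : ℝ) : Orth fun s => ex (y * s) * ψ s := by
  intro z ε hε
  obtain ⟨C, hC, H⟩ := h (z + y) ε hε
  refine ⟨C, hC, fun R ξ v x q hv hU => ?_⟩
  have := H R ξ v x q hv hU
  simpa only [add_mul z y, ex_add, mul_assoc] using this

lemma Orth.sum {α : Type*} (T : Finset α) (ψ : α → ℤ → ℂ) (h : ∀ a ∈ T, Orth (ψ a)) :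
    Orth fun s => ∑ a ∈ T, ψ a s := by
  classical
  induction T using Finset.induction_on with
  | empty => simpa using Orth.zero
  | insert a T ha ih =>
    simp only [sum_insert ha]
    exact (h a (mem_insert_self _ _)).add (ih fun b hb => h b (mem_insert_of_mem hb))

lemma Orth.of_approx {ψ : ℤ → ℂ}
    (h : ∀ ε : ℝ, 0 < ε → ∃ φ, Orth φ ∧ ∀ s, ‖ψ s - φ s‖ ≤ ε) : Orth ψ := by
  intro y ε hε
  obtain ⟨φ, h1, h2⟩ := h (ε / 2) (by positivity)
  obtain ⟨C, hC, H⟩ := h1 y (ε / 2) (by positivity)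
  refine ⟨C, hC, fun R ξ v x q hv hU => ?_⟩
  have a1 := H R ξ v x q hv hU
  have a2 : ‖∑ r ∈ Ico (0 : ℤ) R, (ξ r : ℂ) * (ex (y * (x + r * q : ℤ)) * ψ (x + r * q)) -
      ∑ r ∈ Ico (0 : ℤ) R, (ξ r : ℂ) * (ex (y * (x + r * q : ℤ)) * φ (x + r * q))‖ ≤
      ε / 2 * ∑ r ∈ Ico (0 : ℤ) R, |ξ r| := by
    rw [← sum_sub_distrib, mul_sum]
    refine (norm_sum_le _ _).trans (sum_le_sum fun r _ => ?_)
    rw [← mul_sub, ← mul_sub, norm_mul, norm_mul, norm_ex, one_mul, Complex.norm_real,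
      Real.norm_eq_abs, mul_comm]
    gcongr
    exact h2 _
  linarith [norm_le_norm_add_norm_sub'
    (∑ r ∈ Ico (0 : ℤ) R, (ξ r : ℂ) * (ex (y * (x + r * q : ℤ)) * ψ (x + r * q)))
    (∑ r ∈ Ico (0 : ℤ) R, (ξ r : ℂ) * (ex (y * (x + r * q : ℤ)) * φ (x + r * q)))]

theorem model_quad {n N : ℕ} (B : (Fin n → ℝ) →ₗ[ℝ] (Fin n → ℝ) →ₗ[ℝ] (Fin N → ℝ))
    (T : (Fin n → ℤ) → Fin N → ℝ) (β x₀ : Fin n → ℝ) (Z₀ Z₁ Z₂ : Fin N → ℝ)
    (k : Fin N → ℤ) (f : (Fin n → ℝ) → ℂ) (hf : Continuous f)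
    (haut : ∀ (t : Fin n → ℝ) (v : Fin n → ℤ), f (t + fun a => (v a : ℝ)) =
        ex (∑ a, k a * (T v + B t fun a => (v a : ℝ)) a) * f t) :
    Quad fun s : ℤ => ex (∑ a, k a * (Z₀ + (s : ℝ) • Z₁ + ((s : ℝ) ^ 2) • Z₂) a) *
        f ((s : ℝ) • β + x₀) := by
  have hex := continuous_ex
  simp only [← modelL_apply k] at haut ⊢
  set K := modelL k with hK
  have hBc : Continuous fun p : (Fin n → ℝ) × (Fin n → ℝ) => K (B p.1 p.2) :=
    (B.compr₂ K).toContinuousBilinearMap.continuous₂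
  let X := Metric.closedBall (0 : Fin n → ℝ) 1
  obtain ⟨Ψ, hΨc, -, hΨa⟩ := fourier_approx (κ := Fin n) (X := X)
    (fun z u => f (z + u) * (starRingEnd ℂ) (f z) * ex (-K (B u z)))
    (by
      have g1 : Continuous fun p : (Fin n → ℝ) × X => f (p.1 + p.2) :=
        hf.comp (continuous_fst.add (continuous_subtype_val.comp continuous_snd))
      have g2 : Continuous fun p : (Fin n → ℝ) × X => (starRingEnd ℂ) (f p.1) :=
        Complex.continuous_conj.comp (hf.comp continuous_fst)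
      have g3 : Continuous fun p : (Fin n → ℝ) × X => K (B p.2 p.1) :=
        Continuous.comp (g := fun p : (Fin n → ℝ) × (Fin n → ℝ) => K (B p.1 p.2))
          (f := fun p : (Fin n → ℝ) × X => ((p.2 : Fin n → ℝ), p.1)) hBc
          ((continuous_subtype_val.comp continuous_snd).prodMk continuous_fst)
      exact (g1.mul g2).mul (hex.comp g3.neg))
    (fun z u v => by
      rw [add_right_comm, haut, haut, map_mul, conj_ex]
      have h2 : ∀ a b c d : ℝ, ∀ y z : ℂ, a + b + c = d →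
          ex a * y * (ex b * z) * ex c = y * z * ex d := by
        intro a b c d y z h
        rw [← h, ex_add, ex_add]
        ring
      apply h2
      simp only [map_add, LinearMap.add_apply]
      ring)
  intro ε hε
  obtain ⟨S, c, hS⟩ := hΨa ε hε
  have hb : ∀ m, ∃ C : ℝ, ∀ u, ‖Ψ m u‖ ≤ C := fun m => by
    obtain ⟨C, hC⟩ := (isCompact_range (hΨc m).norm).bddAbove
    exact ⟨C, fun u => hC ⟨u, rfl⟩⟩
  choose C hC using hb
  have hC0 : ∀ m, 0 ≤ ‖c m‖ * C m := fun m =>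
    mul_nonneg (norm_nonneg _) ((norm_nonneg _).trans (hC m ⟨0, by simp [X]⟩))
  refine ⟨_, S, ∑ m ∈ S, ‖c m‖ * C m, sum_nonneg fun m _ => hC0 m, fun h => ?_⟩
  obtain ⟨u, v, hu, huv⟩ := pure_decomp ((h : ℝ) • β)
  let u' : X := ⟨u, by simpa [X] using hu⟩
  refine ⟨fun m => ex (K ((h : ℝ) • Z₁ + ((h : ℝ) ^ 2) • Z₂ + T v + B (x₀ + u) (cv v) + B u x₀) +
      modelL m x₀) * (c m * Ψ m u'),
    fun m => K ((2 * h : ℝ) • Z₂ + B β (cv v) + B u β) + modelL m β, fun m hm => ?_, fun s => ?_⟩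
  · rw [norm_mul, norm_ex, one_mul, norm_mul]
    refine le_trans ?_ (single_le_sum (f := fun m => ‖c m‖ * C m) (fun m _ => hC0 m) hm)
    gcongr
    exact hC m u'
  · refine le_trans (le_of_eq ?_) (hS ((s : ℝ) • β + x₀) u')
    rw [← one_mul ‖f ((s : ℝ) • β + x₀ + u') * _ * _ - _‖,
      ← norm_ex (K ((h : ℝ) • Z₁ + ((h : ℝ) ^ 2) • Z₂ + T v + B (x₀ + u) (cv v) + B u x₀) +
        K ((2 * h : ℝ) • Z₂ + B β (cv v) + B u β) * s), ← norm_mul, mul_sub, mul_sum]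
    congr 2
    · have e1 : ((s + h : ℤ) : ℝ) • β + x₀ = ((s : ℝ) • β + x₀ + u) + fun a => (v a : ℝ) := by
        push_cast
        rw [add_smul, huv]
        change _ = _ + cv v
        abel
      beta_reduce
      rw [e1, haut, map_mul, conj_ex]
      have h2 : ∀ a b c d e : ℝ, ∀ y z : ℂ, a + b + c = d + e →
          ex a * (ex b * y) * (ex c * z) = ex d * (y * z * ex e) := by
        intro a b c d e y z h
        have := congrArg ex h
        rw [ex_add, ex_add, ex_add] at this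
        linear_combination y * z * this
      apply h2
      change _ + K (T v + B _ (cv v)) + _ = _
      simp only [u', map_add, map_smul, LinearMap.add_apply, LinearMap.smul_apply, smul_eq_mul]
      push_cast
      ring
    · refine sum_congr rfl fun m _ => ?_
      beta_reduce
      rw [← modelL_apply m]
      have h2 : ∀ a b d e : ℝ, ∀ y z : ℂ, a + b = d + e →
          ex a * (y * z) * ex b = ex d * (y * ex e * z) := by
        intro a b d e y z h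
        have := congrArg ex h
        rw [ex_add, ex_add] at this
        linear_combination y * z * this
      apply h2
      simp only [map_add (modelL m), map_smul (modelL m), smul_eq_mul]
      ring

lemma nilorth_residue {G Y : Type} [Group G] [TopologicalSpace G] [IsTopologicalGroup G]
    [T2Space G] [TopologicalSpace Y] [CompactSpace Y] [MulAction G Y]
    [MulAction.IsPretransitive G Y] [ContinuousSMul G Y]
    (h2 : ∀ a b c : G, Commute (a * b * a⁻¹ * b⁻¹) c)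
    (hopen : ∀ y : Y, ∀ U ∈ 𝓝 (1 : G), (fun g : G => g • y) '' U ∈ 𝓝 y)
    {d : ℕ} (φ : Fin d → ℝ → G) (hφc : ∀ a, Continuous (φ a))
    (hφ : ∀ a s t, φ a (s + t) = φ a s * φ a t)
    (hnb : (fun x : Fin d → ℝ => (List.ofFn fun a => φ a (x a)).prod) '' Metric.closedBall 0 1
        ∈ 𝓝 (1 : G)) (c : G) (y : Y)
    (hcy : ∃ g ∈ Subgroup.closure (⋃ a, Set.range (φ a)), c • y = g • y)
    (r : ℕ) (hr : 0 < r) (j : ℤ) (F : Y → ℂ) (hF : Continuous F) :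
    ∃ ψ : ℤ → ℂ, Orth ψ ∧ ∀ m : ℤ, ψ (r * m + j) = F (c ^ m • y) := by
  obtain ⟨n, N, τ, σ, B, T, β, Z₁, Z₂, hτ, hσ, hadd, hfix, haut, horb⟩ :=
    nil_model h2 hopen φ hφc hφ hnb c y hcy
  have hr' : (r : ℝ) ≠ 0 := by positivity
  have hstr := model_quad B T ((r : ℝ)⁻¹ • β) (-((j : ℝ) / r) • β)
    (-((j : ℝ) / r) • Z₁ + ((j : ℝ) / r) ^ 2 • Z₂)
    ((r : ℝ)⁻¹ • Z₁ + (-2 * j / (r : ℝ) ^ 2) • Z₂) (((r : ℝ) ^ 2)⁻¹ • Z₂)
  obtain ⟨Ψ, hΨc, hΨe, hΨa⟩ := fourier_approx (κ := Fin N) (X := Y) (fun z x => F (τ z • x))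
    (by
      have : Continuous fun p : (Fin N → ℝ) × Y => F (τ p.1 • p.2) :=
        hF.comp ((hτ.comp continuous_fst).smul continuous_snd)
      exact this)
    (fun z x v => by rw [hadd, mul_smul, hfix])
  refine ⟨fun s => F (τ ((-((j : ℝ) / r) • Z₁ + ((j : ℝ) / r) ^ 2 • Z₂) +
      (s : ℝ) • ((r : ℝ)⁻¹ • Z₁ + (-2 * j / (r : ℝ) ^ 2) • Z₂) +
      ((s : ℝ) ^ 2) • (((r : ℝ) ^ 2)⁻¹ • Z₂)) •
      σ ((s : ℝ) • ((r : ℝ)⁻¹ • β) + -((j : ℝ) / r) • β) • y), ?_, fun m => ?_⟩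
  · refine Orth.of_approx fun ε hε => ?_
    obtain ⟨S, cf, hS⟩ := hΨa ε hε
    refine ⟨_, Orth.sum S _ fun k _ => (hstr k (fun t => Ψ k (σ t • y))
      ((hΨc k).comp (hσ.smul continuous_const)) fun t v => ?_).orth.const_mul (cf k), fun s => ?_⟩
    · refine hΨe k _ _ _ fun z => ?_
      simp only [haut, hadd z, mul_smul]
    · simpa only [mul_assoc] using hS _ _
  · have e1 : (-((j : ℝ) / r) • Z₁ + ((j : ℝ) / r) ^ 2 • Z₂) +
        ((r * m + j : ℤ) : ℝ) • ((r : ℝ)⁻¹ • Z₁ + (-2 * j / (r : ℝ) ^ 2) • Z₂) +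
        (((r * m + j : ℤ) : ℝ) ^ 2) • (((r : ℝ) ^ 2)⁻¹ • Z₂) =
        (m : ℝ) • Z₁ + ((m : ℝ) ^ 2) • Z₂ := by
      ext a
      simp only [Pi.add_apply, Pi.smul_apply, smul_eq_mul]
      push_cast; field_simp; ring
    have e2 : ((r * m + j : ℤ) : ℝ) • ((r : ℝ)⁻¹ • β) + -((j : ℝ) / r) • β = (m : ℝ) • β := by
      ext a
      simp only [Pi.add_apply, Pi.smul_apply, smul_eq_mul]
      push_cast; field_simp; ring
    simp only [e1, e2, horb m]

theorem nil_orth {d : ℕ} (G : Type) [Group G] [TopologicalSpace G] [T2Space G]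
    [ChartedSpace (EuclideanSpace ℝ (Fin d)) G]
    [LieGroup (modelWithCornersSelf ℝ (EuclideanSpace ℝ (Fin d))) ((⊤ : ℕ∞) : WithTop ℕ∞) G]
    (h2 : ∀ a b c : G, Commute (a * b * a⁻¹ * b⁻¹) c) (Γ : Subgroup G) [CompactSpace (G ⧸ Γ)]
    (b : G) (y : G ⧸ Γ) (F : G ⧸ Γ → ℂ) (hF : Continuous F) :
    Orth fun s : ℤ => F (b ^ s • y) := by
  have : IsTopologicalGroup G := topologicalGroup_of_lieGroup
    (modelWithCornersSelf ℝ (EuclideanSpace ℝ (Fin d))) ((⊤ : ℕ∞) : WithTop ℕ∞)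
  obtain ⟨φ, hφc, hφ, hnb⟩ := exists_oneParam (d := d) G
  have hopen : ∀ y : G ⧸ Γ, ∀ U ∈ 𝓝 (1 : G), (fun g : G => g • y) '' U ∈ 𝓝 y := by
    intro y U hU
    induction y using QuotientGroup.induction_on with
    | H x =>
      have h1 : IsOpenMap fun g : G => g • (x : G ⧸ Γ) :=
        QuotientGroup.isOpenMap_coe.comp (isOpenMap_mul_right x)
      simpa using h1.image_mem_nhds hU
  obtain ⟨r, hr, hpow⟩ := nil_power hopen φ hφc hφ hnb b y
  have hr' : (r : ℝ) ≠ 0 := by positivity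
  choose ψ hψ hψe using fun j : ℕ =>
    nilorth_residue h2 hopen φ hφc hφ hnb (b ^ r) (b ^ (j : ℤ) • y) (hpow j) r hr j F hF
  have key : Orth (fun s : ℤ =>
      ∑ j ∈ range r, ∑ t ∈ range r, ((r : ℂ)⁻¹ * ex (t * (-(j : ℝ) / r))) *
        (ex ((t * (r : ℝ)⁻¹) * s) * ψ j s)) :=
    Orth.sum _ _ fun j _ => Orth.sum _ _ fun t _ => Orth.const_mul (Orth.mul_ex (hψ j) _) _
  suffices H : (fun s : ℤ => F (b ^ s • y)) = _ from H ▸ key
  funext s
  have e : ∀ j ∈ range r, ∑ t ∈ range r, ((r : ℂ)⁻¹ * ex (t * (-(j : ℝ) / r))) *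
      (ex ((t * (r : ℝ)⁻¹) * s) * ψ j s) = if j = (s % r).toNat then ψ j s else 0 := by
    intro j hj
    have e1 : ∀ t ∈ range r, ((r : ℂ)⁻¹ * ex (t * (-(j : ℝ) / r))) *
        (ex ((t * (r : ℝ)⁻¹) * s) * ψ j s) =
        (r : ℂ)⁻¹ * ψ j s * ex (t * (((s - j : ℤ) : ℝ) / r)) := by
      intro t _
      have : (t : ℝ) * (((s - j : ℤ) : ℝ) / r) = t * (-(j : ℝ) / r) + (t * (r : ℝ)⁻¹) * s := by
        push_cast; field_simp; ring
      rw [this, ex_add]; ring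
    rw [sum_congr rfl e1, ← mul_sum, sum_ex_div r hr]
    have h0 := Int.emod_nonneg s (show (r : ℤ) ≠ 0 by omega)
    have hj' := mem_range.1 hj
    have hiff : (r : ℤ) ∣ s - j ↔ j = (s % r).toNat := by
      rw [Int.dvd_iff_emod_eq_zero, ← Int.emod_eq_emod_iff_emod_sub_eq_zero,
        Int.emod_eq_of_lt (a := j) (by omega) (by omega)]
      omega
    by_cases h : j = (s % r).toNat
    · rw [if_pos (hiff.2 h), if_pos h]
      have : (r : ℂ) ≠ 0 := by exact_mod_cast hr.ne'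
      field_simp
    · rw [if_neg (fun h' => h (hiff.1 h')), if_neg h, mul_zero]
  have h0 := Int.emod_nonneg s (show (r : ℤ) ≠ 0 by omega)
  have h1 := Int.emod_lt_of_pos s (show (0 : ℤ) < r by omega)
  rw [sum_congr rfl e, sum_ite_eq' (range r), if_pos (mem_range.2 (by omega))]
  have h3 := hψe (s % r).toNat (s / r)
  rw [Int.toNat_of_nonneg h0, Int.mul_ediv_add_emod] at h3
  rw [h3, ← mul_smul, ← zpow_natCast, ← zpow_mul, ← zpow_add, Int.mul_ediv_add_emod]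

end Pool.Agent.P.MP_fc4783_an
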