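import Pool.Agent.P.MP_fc4783_an.Basic

/-!
Rounding a finitely supported mean to a sequence of points whose discrepancy is uniform of
order three (first moment method).
-/

namespace Pool.Agent.P.MP_fc4783_an

open Filter Topology Finset

lemma rd_shift {M : Type*} [AddCommMonoid M] (R : ℕ) (η : ℤ → M)
    (hη : ∀ x, x ∉ Ico (0 : ℤ) R → η x = 0) (r : ℤ) (hr : r ∈ Ico (0 : ℤ) R) :
    ∑ h ∈ Icc (-(R : ℤ)) R, η (r + h) = ∑ x ∈ Ico (0 : ℤ) R, η x := by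
  have e : ∑ h ∈ Icc (-(R : ℤ)) R, η (r + h) =
      ∑ x ∈ (Icc (-(R : ℤ)) R).map (addLeftEmbedding r), η x := by
    rw [sum_map]; rfl
  rw [e]
  symm
  refine sum_subset (fun x hx => ?_) fun x _ hx => hη x hx
  rw [Finset.mem_map]
  refine ⟨x - r, ?_, by simp⟩
  rw [mem_Ico] at hx hr
  rw [mem_Icc]
  omega

lemma rd_sq (R : ℕ) (η : ℤ → ℂ) (hη : ∀ x, x ∉ Ico (0 : ℤ) R → η x = 0) :
    ((‖∑ x ∈ Ico (0 : ℤ) R, η x‖ ^ 2 : ℝ) : ℂ) =
      ∑ h ∈ Icc (-(R : ℤ)) R, ∑ r ∈ Ico (0 : ℤ) R, η (r + h) * (starRingEnd ℂ) (η r) := by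
  rw [sum_comm, ← Complex.normSq_eq_norm_sq, ← Complex.mul_conj, map_sum, mul_sum]
  refine sum_congr rfl fun r hr => ?_
  rw [← sum_mul, rd_shift R η hη r hr]

lemma rd_sq_le (R : ℕ) (η : ℤ → ℂ) (hη : ∀ x, x ∉ Ico (0 : ℤ) R → η x = 0) :
    ‖∑ x ∈ Ico (0 : ℤ) R, η x‖ ^ 2 ≤
      ∑ h ∈ Icc (-(R : ℤ)) R, ‖∑ r ∈ Ico (0 : ℤ) R, η (r + h) * (starRingEnd ℂ) (η r)‖ := by
  refine le_trans ?_ (norm_sum_le _ _)
  rw [← rd_sq R η hη, Complex.norm_real]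
  exact le_abs_self _

/-- Uniformity of order three of a real sequence supported on `[0, R)`. -/
def Unif (R : ℕ) (ξ : ℤ → ℝ) (v : ℝ) : Prop :=
  (∀ x, x ∉ Ico (0 : ℤ) R → ξ x = 0) ∧ ∀ α : ℤ → ℝ,
    ∑ h ∈ Icc (-(R : ℤ)) R, ‖∑ r ∈ Ico (0 : ℤ) R, ((ξ (r + h) * ξ r : ℝ) : ℂ) * ex (α h * r)‖ ≤ v ^ 2

lemma Unif.abs_sum_le {R : ℕ} {ξ : ℤ → ℝ} {v : ℝ} (h : Unif R ξ v) (hv : 0 ≤ v) :
    |∑ r ∈ Ico (0 : ℤ) R, ξ r| ≤ v := by
  have h1 := rd_sq_le R (fun x => (ξ x : ℂ)) fun x hx => by simp [h.1 x hx]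
  have h2 := h.2 fun _ => 0
  simp only [zero_mul, ex_zero, mul_one, Complex.ofReal_mul] at h2
  simp only [Complex.conj_ofReal] at h1
  rw [← Complex.ofReal_sum, Complex.norm_real, Real.norm_eq_abs] at h1
  exact (pow_le_pow_iff_left₀ (abs_nonneg _) hv two_ne_zero).1 (h1.trans h2)

/-- Fourfold correlations. -/
noncomputable def rdA (R : ℕ) (ξ : ℤ → ℝ) (h k : ℤ) : ℝ :=
  ∑ r ∈ Ico (0 : ℤ) R, ξ (r + k + h) * ξ (r + k) * (ξ (r + h) * ξ r)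

lemma rd_card (R : ℕ) (hR : 0 < R) : ((Icc (-(R : ℤ)) R).card : ℝ) ≤ 3 * R := by
  rw [Int.card_Icc]
  have : (R + 1 - -(R : ℤ)).toNat ≤ 3 * R := by omega
  exact_mod_cast this

lemma unif_of_rdA (R : ℕ) (hR : 0 < R) (ξ : ℤ → ℝ) (hξ : ∀ x, x ∉ Ico (0 : ℤ) R → ξ x = 0)
    (v : ℝ) (hv : 0 ≤ v)
    (h : 81 * (R : ℝ) ^ 4 * ∑ h ∈ Icc (-(R : ℤ)) R, ∑ k ∈ Icc (-(R : ℤ)) R, rdA R ξ h k ^ 2
      ≤ v ^ 8) : Unif R ξ v := by
  refine ⟨hξ, fun α => ?_⟩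
  set J := Icc (-(R : ℤ)) R with hJ
  set X : ℤ → ℝ := fun h => ‖∑ r ∈ Ico (0 : ℤ) R, ((ξ (r + h) * ξ r : ℝ) : ℂ) * ex (α h * r)‖
    with hX
  have h1 : ∀ h, X h ^ 2 ≤ ∑ k ∈ J, |rdA R ξ h k| := by
    intro h
    refine (rd_sq_le R (fun r => ((ξ (r + h) * ξ r : ℝ) : ℂ) * ex (α h * r))
      fun x hx => by simp [hξ x hx]).trans (le_of_eq (sum_congr rfl fun k _ => ?_))
    have e : ∑ r ∈ Ico (0 : ℤ) R, ((ξ (r + k + h) * ξ (r + k) : ℝ) : ℂ) *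
        ex (α h * ((r + k : ℤ) : ℝ)) * (starRingEnd ℂ) (((ξ (r + h) * ξ r : ℝ) : ℂ) *
        ex (α h * r)) = ex (α h * k) * (rdA R ξ h k : ℝ) := by
      rw [rdA, Complex.ofReal_sum, mul_sum]
      refine sum_congr rfl fun r _ => ?_
      rw [map_mul, conj_ex, Complex.conj_ofReal,
        show α h * ((r + k : ℤ) : ℝ) = α h * k + α h * r by push_cast; ring, ex_add]
      have := ex_neg_mul (α h * r)
      push_cast
      linear_combination (ξ (r + k + h) * ξ (r + k) * ex (α h * k) * (ξ (r + h) * ξ r)) * this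
    rw [e, norm_mul, norm_ex, one_mul, Complex.norm_real, Real.norm_eq_abs]
  have hc := rd_card R hR
  have h2 : (∑ h ∈ J, X h) ^ 2 ≤ 3 * R * ∑ h ∈ J, ∑ k ∈ J, |rdA R ξ h k| := by
    refine sq_sum_le_card_mul_sum_sq.trans ?_
    gcongr with h hh
    exact h1 h
  have h3 : (∑ h ∈ J, ∑ k ∈ J, |rdA R ξ h k|) ^ 2 ≤
      3 * R * (3 * R) * ∑ h ∈ J, ∑ k ∈ J, rdA R ξ h k ^ 2 := by
    refine sq_sum_le_card_mul_sum_sq.trans ?_
    rw [mul_assoc (3 * (R : ℝ)), mul_sum (s := J) (a := 3 * (R : ℝ))]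
    gcongr with h hh
    refine sq_sum_le_card_mul_sum_sq.trans ?_
    simp only [sq_abs]
    gcongr
  have h0 : 0 ≤ ∑ h ∈ J, X h := sum_nonneg fun h _ => norm_nonneg _
  refine (pow_le_pow_iff_left₀ h0 (sq_nonneg v) (by norm_num : (4 : ℕ) ≠ 0)).1 ?_
  calc (∑ h ∈ J, X h) ^ 4 = ((∑ h ∈ J, X h) ^ 2) ^ 2 := by ring
    _ ≤ (3 * R * ∑ h ∈ J, ∑ k ∈ J, |rdA R ξ h k|) ^ 2 := by gcongr
    _ = (3 * R) ^ 2 * (∑ h ∈ J, ∑ k ∈ J, |rdA R ξ h k|) ^ 2 := by ring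
    _ ≤ (3 * R) ^ 2 * (3 * R * (3 * R) * ∑ h ∈ J, ∑ k ∈ J, rdA R ξ h k ^ 2) := by gcongr
    _ = 81 * (R : ℝ) ^ 4 * ∑ h ∈ J, ∑ k ∈ J, rdA R ξ h k ^ 2 := by ring
    _ ≤ (v ^ 2) ^ 4 := h.trans (le_of_eq (by ring))

section
variable {ι κ : Type} [Fintype κ] [DecidableEq κ] [DecidableEq ι] (S : Finset ι) (w : ι → ℝ)

lemma rd_total (h1 : ∑ b ∈ S, w b = 1) :
    ∑ σ ∈ Fintype.piFinset fun _ : κ => S, ∏ r, w (σ r) = 1 := by
  rw [← prod_univ_sum]; simp [h1]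

lemma rd_zero (φ : ι → ℝ) (hφ : ∑ b ∈ S, w b * φ b = 0) {τ : Type} [Fintype τ] (pt : τ → κ)
    (t₀ : τ) (h : ∀ t, pt t = pt t₀ → t = t₀) :
    ∑ σ ∈ Fintype.piFinset fun _ : κ => S, (∏ r, w (σ r)) * ∏ t, φ (σ (pt t)) = 0 := by
  classical
  have e : ∀ σ : κ → ι, (∏ r, w (σ r)) * ∏ t, φ (σ (pt t)) =
      ∏ r, (w (σ r) * φ (σ r) ^ (univ.filter fun t => pt t = r).card) := by
    intro σ
    rw [prod_mul_distrib, ← prod_fiberwise univ pt]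
    congr 1
    refine prod_congr rfl fun r _ => ?_
    rw [← prod_const]
    exact prod_congr rfl fun t ht => by rw [(mem_filter.1 ht).2]
  simp only [e]
  rw [← prod_univ_sum (fun _ : κ => S)
    fun r b => w b * φ b ^ (univ.filter fun t => pt t = r).card]
  refine prod_eq_zero (mem_univ (pt t₀)) ?_
  have : (univ.filter fun t => pt t = pt t₀) = {t₀} := by
    ext t
    simp only [mem_filter, mem_univ, true_and, mem_singleton]
    exact ⟨h t, fun e => by rw [e]⟩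
  simpa [this] using hφ

lemma rd_exists (h0 : ∀ b, 0 ≤ w b) (h1 : ∑ b ∈ S, w b = 1) (X : (κ → ι) → ℝ) (M : ℝ)
    (h : ∑ σ ∈ Fintype.piFinset fun _ : κ => S, (∏ r, w (σ r)) * X σ ≤ M) :
    ∃ σ ∈ Fintype.piFinset fun _ : κ => S, X σ ≤ M := by
  by_contra hc
  push Not at hc
  have ht := rd_total (κ := κ) S w h1
  obtain ⟨σ, hσ, hne⟩ := exists_ne_zero_of_sum_ne_zero (by rw [ht]; exact one_ne_zero)
  have hW : ∀ σ : κ → ι, 0 ≤ ∏ r, w (σ r) := fun σ => prod_nonneg fun r _ => h0 _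
  have := sum_lt_sum (s := Fintype.piFinset fun _ : κ => S)
    (f := fun σ => (∏ r, w (σ r)) * M) (g := fun σ => (∏ r, w (σ r)) * X σ)
    (fun σ hσ => mul_le_mul_of_nonneg_left (hc σ hσ).le (hW σ))
    ⟨σ, hσ, mul_lt_mul_of_pos_left (hc σ hσ) (lt_of_le_of_ne (hW σ) hne.symm)⟩
  rw [← sum_mul, ht, one_mul] at this
  linarith

end

/-- The sequence read off a function on `[0, R)`. -/
noncomputable def rdX {ι : Type} (R : ℕ) (φ : ι → ℝ) (σ : Ico (0 : ℤ) R → ι) (x : ℤ) : ℝ :=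
  if h : x ∈ Ico (0 : ℤ) R then φ (σ ⟨x, h⟩) else 0

/-- Indicator of an equality. -/
noncomputable def rdI (x y : ℤ) : ℝ := if x = y then 1 else 0

lemma rdI_nonneg (x y : ℤ) : 0 ≤ rdI x y := by unfold rdI; split_ifs <;> norm_num

lemma rdI_sum (T : Finset ℤ) (y : ℤ) : ∑ x ∈ T, rdI x y ≤ 1 := by
  unfold rdI
  rw [sum_ite_eq']
  split_ifs <;> norm_num

lemma rd_term {ι : Type} [DecidableEq ι] (S : Finset ι) (w : ι → ℝ) (h0 : ∀ b, 0 ≤ w b)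
    (h1 : ∑ b ∈ S, w b = 1) (φ : ι → ℝ) (hφ : ∑ b ∈ S, w b * φ b = 0) (hφ1 : ∀ b, |φ b| ≤ 1)
    (R : ℕ) (pt : Fin 8 → ℤ) :
    ∑ σ ∈ Fintype.piFinset fun _ : Ico (0 : ℤ) R => S,
      (∏ r, w (σ r)) * ∏ t, rdX R φ σ (pt t) ≤ ∑ t : Fin 7, rdI (pt 0) (pt t.succ) := by
  have hnn : 0 ≤ ∑ t : Fin 7, rdI (pt 0) (pt t.succ) := sum_nonneg fun t _ => rdI_nonneg _ _
  by_cases hin : ∀ t, pt t ∈ Ico (0 : ℤ) R
  · by_cases hu : ∀ t, pt t = pt 0 → t = 0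
    · have := rd_zero S w φ hφ (fun t => (⟨pt t, hin t⟩ : Ico (0 : ℤ) R)) 0
        fun t ht => hu t (congrArg Subtype.val ht)
      simp only [rdX, hin, dif_pos]
      rw [this]
      exact hnn
    · push Not at hu
      obtain ⟨t, ht, ht0⟩ := hu
      obtain ⟨t, rfl⟩ := Fin.exists_succ_eq.2 ht0
      have a1 : 1 ≤ ∑ t : Fin 7, rdI (pt 0) (pt t.succ) := by
        refine le_trans (le_of_eq ?_) (single_le_sum
          (f := fun t : Fin 7 => rdI (pt 0) (pt t.succ)) (fun t _ => rdI_nonneg _ _) (mem_univ t))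
        simp [rdI, ht]
      refine le_trans ?_ a1
      rw [← rd_total (κ := Ico (0 : ℤ) R) S w h1]
      refine sum_le_sum fun σ _ => mul_le_of_le_one_right (prod_nonneg fun r _ => h0 _) ?_
      refine (le_abs_self _).trans ?_
      rw [abs_prod]
      refine prod_le_one (fun _ _ => abs_nonneg _) fun t _ => ?_
      simp only [rdX, hin, dif_pos]
      exact hφ1 _
  · push Not at hin
    obtain ⟨t, ht⟩ := hin
    refine le_trans (le_of_eq (sum_eq_zero fun σ _ => ?_)) hnn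
    rw [prod_eq_zero (mem_univ t) (by simp only [rdX, ht, dif_neg, not_false_eq_true]), mul_zero]

lemma rd_moment {ι : Type} [DecidableEq ι] (S : Finset ι) (w : ι → ℝ) (h0 : ∀ b, 0 ≤ w b)
    (h1 : ∑ b ∈ S, w b = 1) (φ : ι → ℝ) (hφ : ∑ b ∈ S, w b * φ b = 0) (hφ1 : ∀ b, |φ b| ≤ 1)
    (R : ℕ) (hR : 0 < R) :
    ∑ σ ∈ Fintype.piFinset fun _ : Ico (0 : ℤ) R => S, (∏ r, w (σ r)) *
      ∑ h ∈ Icc (-(R : ℤ)) R, ∑ k ∈ Icc (-(R : ℤ)) R, rdA R (rdX R φ σ) h k ^ 2 ≤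
      45 * (R : ℝ) ^ 3 := by
  set J := Icc (-(R : ℤ)) R with hJ
  set I := Ico (0 : ℤ) R with hI
  have hJc : (J.card : ℝ) ≤ 3 * R := rd_card R hR
  have hIc : (I.card : ℝ) = R := by rw [hI, Int.card_Ico]; simp
  have e : ∀ σ : Ico (0 : ℤ) R → ι, (∏ r, w (σ r)) *
      ∑ h ∈ J, ∑ k ∈ J, rdA R (rdX R φ σ) h k ^ 2 =
      ∑ h ∈ J, ∑ k ∈ J, ∑ r' ∈ I, ∑ r ∈ I, (∏ r, w (σ r)) * ∏ t, rdX R φ σ
        (![r, r + h, r + k, r + k + h, r', r' + h, r' + k, r' + k + h] t) := by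
    intro σ
    simp only [mul_sum]
    refine sum_congr rfl fun h _ => sum_congr rfl fun k _ => ?_
    rw [sq, rdA, sum_mul_sum]
    simp only [mul_sum]
    refine sum_congr rfl fun r' _ => sum_congr rfl fun r _ => ?_
    congr 1
    simp only [Fin.prod_univ_succ, Matrix.cons_val_zero, Matrix.cons_val_succ, Fin.prod_univ_zero]
    ring
  simp only [e]
  have b1 : ∀ c : ℤ → ℤ, ∑ h ∈ J, ∑ k ∈ J, ∑ r' ∈ I, ∑ r ∈ I, rdI k (c h) ≤ 3 * (R : ℝ) ^ 3 := by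
    intro c
    simp only [sum_const, nsmul_eq_mul, hIc, ← mul_sum]
    calc _ ≤ R * (R * ∑ h ∈ J, (1 : ℝ)) := by gcongr with h hh; exact rdI_sum _ _
      _ ≤ R * (R * (3 * R)) := by gcongr; simpa using hJc
      _ = _ := by ring
  have b2 : ∀ c : ℤ → ℤ → ℤ → ℤ,
      ∑ h ∈ J, ∑ k ∈ J, ∑ r' ∈ I, ∑ r ∈ I, rdI r (c h k r') ≤ 9 * (R : ℝ) ^ 3 := by
    intro c
    calc _ ≤ ∑ h ∈ J, ∑ k ∈ J, ∑ r' ∈ I, (1 : ℝ) := by
          gcongr with h hh k hk r' hr'; exact rdI_sum _ _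
      _ = J.card * (J.card * R) := by simp only [sum_const, nsmul_eq_mul, hIc, mul_one]
      _ ≤ 3 * R * (3 * R * R) := by gcongr
      _ = _ := by ring
  calc _ = ∑ h ∈ J, ∑ k ∈ J, ∑ r' ∈ I, ∑ r ∈ I,
        ∑ σ ∈ Fintype.piFinset fun _ : Ico (0 : ℤ) R => S, (∏ r, w (σ r)) * ∏ t, rdX R φ σ
        (![r, r + h, r + k, r + k + h, r', r' + h, r' + k, r' + k + h] t) := by
        rw [sum_comm]
        refine sum_congr rfl fun h _ => ?_
        rw [sum_comm]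
        refine sum_congr rfl fun k _ => ?_
        rw [sum_comm]
        refine sum_congr rfl fun r' _ => ?_
        rw [sum_comm]
    _ ≤ ∑ h ∈ J, ∑ k ∈ J, ∑ r' ∈ I, ∑ r ∈ I, (rdI h 0 + rdI k 0 + rdI k (-h) + rdI r r' +
        rdI r (r' + h) + rdI r (r' + k) + rdI r (r' + k + h)) := by
        gcongr with h hh k hk r' hr' r hr
        refine (rd_term S w h0 h1 φ hφ hφ1 R _).trans (le_of_eq ?_)
        simp only [Fin.sum_univ_succ, Matrix.cons_val_zero, Matrix.cons_val_succ,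
          Fin.sum_univ_zero]
        have a1 : rdI r (r + h) = rdI h 0 := by unfold rdI; congr 1; apply propext; omega
        have a2 : rdI r (r + k) = rdI k 0 := by unfold rdI; congr 1; apply propext; omega
        have a3 : rdI r (r + k + h) = rdI k (-h) := by unfold rdI; congr 1; apply propext; omega
        rw [a1, a2, a3]
        ring
    _ ≤ _ := by
        simp only [sum_add_distrib]
        have c1 := b1 fun _ => 0
        have c2 := c1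
        rw [sum_comm] at c2
        have c3 := b1 fun h => -h
        have c4 := b2 fun _ _ r' => r'
        have c5 := b2 fun h _ r' => r' + h
        have c6 := b2 fun _ k r' => r' + k
        have c7 := b2 fun h k r' => r' + k + h
        linarith

/-- The discrepancy at the index `a` of the sequence `σ`. -/
noncomputable def rdD (μ : Mean) (R : ℕ) (σ : ℤ → ℕ × ℕ) (a : ℕ × ℕ) (r : ℤ) : ℝ :=
  if r ∈ Ico (0 : ℤ) R then (if σ r = a then 1 else 0) - μ.w a else 0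

lemma Mean.w_le_one (μ : Mean) {a : ℕ × ℕ} (ha : a ∈ μ.S) : μ.w a ≤ 1 := by
  rw [← μ.sum_one]
  exact single_le_sum (fun b _ => μ.nonneg b) ha

theorem exists_round (μ : Mean) (δ : ℝ) (hδ : 0 < δ) : ∃ (R : ℕ) (σ : ℤ → ℕ × ℕ), 0 < R ∧
    (∀ r, σ r ∈ μ.S) ∧ ∀ a ∈ μ.S, Unif R (rdD μ R σ a) (δ * R) := by
  obtain ⟨R, hR⟩ := exists_nat_gt (81 * (μ.S.card * 45) / δ ^ 8)
  have hR0 : (0 : ℝ) < R := lt_of_le_of_lt (by positivity) hR
  have hR1 : 0 < R := by exact_mod_cast hR0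
  obtain ⟨a₀, ha₀, -⟩ := exists_ne_zero_of_sum_ne_zero (s := μ.S) (f := μ.w)
    (by rw [μ.sum_one]; exact one_ne_zero)
  let φ : ℕ × ℕ → ℕ × ℕ → ℝ := fun a b => (if b = a then 1 else 0) - if a ∈ μ.S then μ.w a else 0
  obtain ⟨σ, hσ, hX⟩ := rd_exists (κ := Ico (0 : ℤ) R) μ.S μ.w μ.nonneg μ.sum_one
    (fun σ => ∑ a ∈ μ.S, ∑ h ∈ Icc (-(R : ℤ)) R, ∑ k ∈ Icc (-(R : ℤ)) R,
      rdA R (rdX R (φ a) σ) h k ^ 2) (μ.S.card * (45 * (R : ℝ) ^ 3)) (by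
      simp only [mul_sum (s := μ.S)]
      rw [sum_comm, ← nsmul_eq_mul, ← sum_const]
      refine sum_le_sum fun a ha => rd_moment μ.S μ.w μ.nonneg μ.sum_one (φ a) ?_ ?_ R hR1
      · simp only [φ, ha, if_true, mul_sub, sum_sub_distrib, ← sum_mul, μ.sum_one, mul_ite,
          mul_one, mul_zero, sum_ite_eq', one_mul, sub_self]
      · intro b
        have := μ.w_le_one ha
        have := μ.nonneg a
        simp only [φ, ha, if_true]
        rw [abs_le]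
        split_ifs <;> constructor <;> linarith)
  refine ⟨R, fun r => if h : r ∈ Ico (0 : ℤ) R then σ ⟨r, h⟩ else a₀, hR1, fun r => ?_,
    fun a ha => ?_⟩
  · by_cases h : r ∈ Ico (0 : ℤ) R
    · simp only [h, dif_pos]
      exact Fintype.mem_piFinset.1 hσ _
    · simp only [h, dif_neg, not_false_eq_true]
      exact ha₀
  · have e : rdD μ R (fun r => if h : r ∈ Ico (0 : ℤ) R then σ ⟨r, h⟩ else a₀) a =
        rdX R (φ a) σ := by
      funext r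
      by_cases h : r ∈ Ico (0 : ℤ) R
      · simp only [rdD, rdX, h, dif_pos, if_true, φ, ha]
      · simp only [rdD, rdX, h, dif_neg, not_false_eq_true, if_false]
    rw [e]
    refine unif_of_rdA R hR1 _ (fun x hx => by simp only [rdX, hx, dif_neg, not_false_eq_true])
      _ (by positivity) ?_
    have b1 := (single_le_sum (f := fun a => ∑ h ∈ Icc (-(R : ℤ)) R, ∑ k ∈ Icc (-(R : ℤ)) R,
      rdA R (rdX R (φ a) σ) h k ^ 2) (fun a _ => by positivity) ha).trans hX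
    rw [div_lt_iff₀ (by positivity)] at hR
    calc _ ≤ 81 * (R : ℝ) ^ 4 * (μ.S.card * (45 * (R : ℝ) ^ 3)) := by gcongr
      _ = 81 * (μ.S.card * 45) * (R : ℝ) ^ 7 := by ring
      _ ≤ R * δ ^ 8 * (R : ℝ) ^ 7 := by gcongr
      _ = _ := by ring

end Pool.Agent.P.MP_fc4783_an
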